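import Pool.Agent.TH167.DD.Adj2

set_option autoImplicit false

/-!
# Extension of configurations of lines
-/

namespace Pool.Agent.TH167.CL

open MvPolynomial Pool.Agent.W609 Pool.Agent.W609.CR Pool.Agent.TH167.SH Pool.Agent.TH167.DD

theorem sum_upd2 {s : ℕ} (w r : Fin s → ℕ) (i : Fin s) :
    ∑ j, w j * Function.update r i (r i + 1) j = ∑ j, w j * r j + w i := by
  classical
  rw [← Finset.add_sum_erase _ _ (Finset.mem_univ i),
    ← Finset.add_sum_erase Finset.univ (fun j => w j * r j) (Finset.mem_univ i)]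
  have h1 : ∑ j ∈ Finset.univ.erase i, w j * Function.update r i (r i + 1) j =
      ∑ j ∈ Finset.univ.erase i, w j * r j := by
    refine Finset.sum_congr rfl fun j hj => ?_
    rw [Function.update_of_ne (Finset.ne_of_mem_erase hj)]
  rw [h1]
  simp only [Function.update_self]
  ring

open scoped Classical in
/-- One more line. -/
theorem step_cfg {K : Type} [Field K] [CharZero K] [IsAlgClosed K] {s : ℕ}
    {G : MvPolynomial (Fin 3) K} {d : ℕ} (hG : Irreducible G) (hGd : G.IsHomogeneous d)
    (hd : 2 ≤ d) {P : Fin s → Fin 2 → K} (hP : Function.Injective P) {w : Fin s → ℕ}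
    (hw : ∀ i, Ord (aff (P i)) (w i) G) {r : Fin s → ℕ} {Ls : List (K × K)}
    {Q : Finset (Fin 2 → K)} (hC : Cfg G d P w r Ls Q) (i0 : Fin s) :
    ∃ (l : K × K) (Q0 : Finset (Fin 2 → K)),
      Cfg G d P w (Function.update r i0 (r i0 + 1)) (l :: Ls) (Q ∪ Q0) ∧ Disjoint Q Q0 ∧
      Q0.card + w i0 = d := by
  classical
  obtain ⟨l, Q0, c1, c2, c3, c4, c5, c6, c7⟩ := choose_line hG hGd hd (hw i0)
    ((Finset.univ.erase i0).image P ∪ Q) (by
      rw [Finset.mem_union, not_or]
      refine ⟨?_, hC.disj i0⟩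
      rw [Finset.mem_image]
      rintro ⟨j, hj, hj2⟩
      exact Finset.ne_of_mem_erase hj (hP hj2))
  have hT1 : ∀ i, i ≠ i0 → ¬ onl l (P i) := fun i hi => c2 _ (Finset.mem_union_left _
    (Finset.mem_image_of_mem P (Finset.mem_erase.2 ⟨hi, Finset.mem_univ i⟩)))
  have hT2 : ∀ q ∈ Q, ¬ onl l q := fun q hq => c2 _ (Finset.mem_union_right _ hq)
  have hold : ∀ q ∈ Q0, ∀ l' ∈ Ls, ¬ onl l' q := by
    intro q hq l' hl' hon
    obtain ⟨d1, d2, d3, d4⟩ := c6 q hq
    rcases hC.root l' hl' q hon d3 with ⟨i, rfl⟩ | h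
    · by_cases hi : i = i0
      · rw [hi] at d2
        exact d2 rfl
      · exact hT1 i hi d1
    · exact hT2 q h d1
  have hdisj : Disjoint Q Q0 := by
    rw [Finset.disjoint_left]
    intro q hq hq0
    exact hT2 q hq (c6 q hq0).1
  refine ⟨l, Q0, ⟨?_, ?_, ?_, ?_, ?_, ?_, ?_, ?_, ?_⟩, hdisj, c5⟩
  · intro l' hl'
    rcases List.mem_cons.1 hl' with rfl | h
    · exact c3
    · exact hC.deg l' h
  · intro l' hl' q hq hq2
    rcases List.mem_cons.1 hl' with rfl | h
    · rcases c7 q hq hq2 with h1 | h1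
      · exact Or.inl ⟨i0, h1⟩
      · exact Or.inr (Finset.mem_union_right _ h1)
    · rcases hC.root l' h q hq hq2 with h1 | h1
      · exact Or.inl h1
      · exact Or.inr (Finset.mem_union_left _ h1)
  · intro i hi
    rcases Finset.mem_union.1 hi with h | h
    · exact hC.disj i h
    · obtain ⟨d1, d2, d3, d4⟩ := c6 _ h
      by_cases hi2 : i = i0
      · rw [hi2] at d2
        exact d2 rfl
      · exact hT1 i hi2 d1
  · intro q hq
    rcases Finset.mem_union.1 hq with h | h
    · rw [cnt_cons_neg (hT2 q h)]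
      exact hC.cntQ q h
    · rw [cnt_cons_pos (c6 q h).1, cnt_zero (hold q h)]
  · intro q hq l' hl' hon
    rcases Finset.mem_union.1 hq with h | h
    · rcases List.mem_cons.1 hl' with rfl | h2
      · exact absurd hon (hT2 q h)
      · exact hC.ntQ q h l' h2 hon
    · rcases List.mem_cons.1 hl' with rfl | h2
      · exact (c6 q h).2.2.2
      · exact absurd hon (hold q h l' h2)
  · intro q hq
    rcases Finset.mem_union.1 hq with h | h
    · exact hC.zQ q h
    · exact (c6 q h).2.2.1
  · intro i
    by_cases hi : i = i0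
    · rw [hi, cnt_cons_pos c1, hC.cntP i0, Function.update_self]
    · rw [cnt_cons_neg (hT1 i hi), hC.cntP i, Function.update_of_ne hi]
  · intro i l' hl' hon
    rcases List.mem_cons.1 hl' with rfl | h2
    · by_cases hi : i = i0
      · rw [hi]
        exact c4
      · exact absurd hon (hT1 i hi)
    · exact hC.ntP i l' h2 hon
  · rw [Finset.card_union_of_disjoint hdisj, sum_upd2 w r i0, List.length_cons]
    have := hC.card
    have h2 : d * (Ls.length + 1) = d * Ls.length + d := by ring
    omega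

open scoped Classical in
/-- The extension of configurations. -/
theorem extend_cfg {K : Type} [Field K] [CharZero K] [IsAlgClosed K] {s : ℕ}
    {G : MvPolynomial (Fin 3) K} {d : ℕ} (hG : Irreducible G) (hGd : G.IsHomogeneous d)
    (hd : 2 ≤ d) {P : Fin s → Fin 2 → K} (hP : Function.Injective P) {w : Fin s → ℕ}
    (hw : ∀ i, Ord (aff (P i)) (w i) G) {r0 : Fin s → ℕ} {Ls0 : List (K × K)}
    {Q0 : Finset (Fin 2 → K)} (h0 : Cfg G d P w r0 Ls0 Q0) :
    ∀ (n : ℕ) (r : Fin s → ℕ), ∑ i, r i = n →
      ∃ (Ls : List (K × K)) (Q : Finset (Fin 2 → K)),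
        Cfg G d P w (fun i => r i + r0 i) Ls (Q0 ∪ Q) ∧ Ls.length = n + Ls0.length ∧
        Disjoint Q0 Q ∧ Q.card + ∑ i, w i * r i = d * n := by
  classical
  intro n
  induction n with
  | zero =>
    intro r hr
    have h1 : ∀ i, r i = 0 := fun i => (Finset.sum_eq_zero_iff.1 hr) i (Finset.mem_univ i)
    refine ⟨Ls0, ∅, ?_, by omega, Finset.disjoint_empty_right _, by simp [h1]⟩
    have h2 : (fun i => r i + r0 i) = r0 := by
      funext i
      rw [h1 i, zero_add]
    rw [h2, Finset.union_empty]
    exact h0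
  | succ n ih =>
    intro r hr
    obtain ⟨i0, hi0⟩ : ∃ i0, r i0 ≠ 0 := by
      by_contra hcon
      push Not at hcon
      simp [hcon] at hr
    have hsum : ∑ i, Function.update r i0 (r i0 - 1) i = n := by
      have := sum_upd (fun _ => 1) r i0 hi0
      simp only [one_mul] at this
      omega
    obtain ⟨Ls, Q, hC, hlen, hdis, hcd⟩ := ih _ hsum
    obtain ⟨l, Q1, hC1, hdis1, hcd1⟩ := step_cfg hG hGd hd hP hw hC i0
    refine ⟨l :: Ls, Q ∪ Q1, ?_, ?_, ?_, ?_⟩
    · have h2 : Function.update (fun i => Function.update r i0 (r i0 - 1) i + r0 i) i0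
          (Function.update r i0 (r i0 - 1) i0 + r0 i0 + 1) = fun i => r i + r0 i := by
        funext i
        by_cases hi : i = i0
        · rw [hi, Function.update_self, Function.update_self]
          omega
        · rw [Function.update_of_ne hi, Function.update_of_ne hi]
      have h3 := hC1
      simp only [h2] at h3
      rw [← Finset.union_assoc]
      exact h3
    · rw [List.length_cons, hlen]
      omega
    · rw [Finset.disjoint_union_right]
      refine ⟨hdis, ?_⟩
      rw [Finset.disjoint_union_left] at hdis1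
      exact hdis1.1
    · rw [Finset.disjoint_union_left] at hdis1
      rw [Finset.card_union_of_disjoint hdis1.2, sum_upd w r i0 hi0]
      have h2 : d * (n + 1) = d * n + d := by ring
      omega

end Pool.Agent.TH167.CL
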