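import Pool.Agent.TH167.CL.TB

set_option autoImplicit false

/-!
# The theorem of Clifford for systems on a prime divisor
-/

namespace Pool.Agent.TH167.CL

open MvPolynomial Pool.Agent.W609 Pool.Agent.W609.CR Pool.Agent.TH167.SH Pool.Agent.TH167.DD

theorem ev_le {K : Type} [Field K] (Q : Finset (Fin 2 → K))
    (A : Submodule K (MvPolynomial (Fin 3) K)) :
    Module.finrank K ↥(A.map (ev Q)) ≤ Q.card := by
  have h1 := Submodule.finrank_le (A.map (ev Q))
  rw [Module.finrank_fintype_fun_eq_card, Fintype.card_coe] at h1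
  exact h1

/-- A form of a large system, which is not in a small subspace, and which vanishes at given
points. -/
theorem exists_van {K : Type} [Field K] (J : Finset (Fin 2 → K))
    (A B : Submodule K (MvPolynomial (Fin 3) K)) [Module.Finite K ↥A] [Module.Finite K ↥B]
    (h : Module.finrank K ↥B + J.card < Module.finrank K ↥A) :
    ∃ f ∈ A, f ∉ B ∧ ∀ q ∈ J, eval (aff q) f = 0 := by
  by_contra hcon
  push Not at hcon
  have h1 := ev_dim J A B (fun f hf hfJ => by
    by_contra hfB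
    obtain ⟨q, hq, hq2⟩ := hcon f hf hfB
    exact hq2 (hfJ q hq))
  have h2 := ev_le J A
  omega

/-- The theorem of Clifford, for a system which is cut on a prime divisor `G` by forms of the
degree of `G`. -/
theorem cliff {K : Type} [Field K] [CharZero K] [IsAlgClosed K] {s : ℕ}
    {G : MvPolynomial (Fin 3) K} {d : ℕ} (hG : Irreducible G) (hGd : G.IsHomogeneous d)
    (hd : 2 ≤ d) {P : Fin s → Fin 2 → K} (hP : Function.Injective P) {w : Fin s → ℕ}
    (hw : ∀ i, Ord (aff (P i)) (w i) G) {u : Fin s → ℕ} (hu : ∀ i, u i ≤ w i)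
    (hc : ∃ m0, ∀ m, m0 ≤ m → Module.finrank K ↥(VS (fun j => aff (P j))
      (fun i => w i - 1 - u i) m) + ∑ i, (w i - 1 - u i + 1).choose 2 ≤ (m + 2).choose 2)
    (h2 : 2 ≤ Module.finrank K ↥(VS (fun j => aff (P j)) u d)) :
    2 * Module.finrank K ↥(VS (fun j => aff (P j)) u d) + 2 * ∑ i, w i * u i + ∑ i, w i ≤
        d * d + 3 * d + 2 + ∑ i, w i * w i ∨
      2 * Module.finrank K ↥(VS (fun j => aff (P j)) u d) + ∑ i, w i * u i ≤ d * d + 4 := by
  classical
  obtain ⟨m0, hc⟩ := hc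
  have hG0 := hG.ne_zero
  obtain ⟨N, hN⟩ : ∃ N, N = d + d * d + ∑ j, w j + 5 + m0 := ⟨_, rfl⟩
  -- a point outside of the curve and of `P`
  obtain ⟨p1, hp1, hp1P⟩ : ∃ p1 : Fin 2 → K, eval (aff p1) G ≠ 0 ∧ ∀ j, P j ≠ p1 := by
    obtain ⟨H, hH0, hHh, hHP⟩ : ∃ H : MvPolynomial (Fin 3) K, H ≠ 0 ∧
        H.IsHomogeneous H.totalDegree ∧ ∀ j, eval (aff (P j)) H = 0 := by
      refine ⟨∏ j, mf 0 (P j), Finset.prod_ne_zero_iff.2 fun j _ => mf_ne 0 _, ?_, fun j => ?_⟩
      · have h1 : (∏ j, mf 0 (P j)).IsHomogeneous (∑ j : Fin s, 1) :=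
          IsHomogeneous.prod _ _ _ fun j _ => mf_hom 0 _
        have h2 := h1.totalDegree (Finset.prod_ne_zero_iff.2 fun j _ => mf_ne 0 _)
        rwa [← h2] at h1
      · rw [map_prod]
        exact Finset.prod_eq_zero (Finset.mem_univ j) (by rw [eval_mf, sub_self])
    obtain ⟨p1, hp1⟩ := TT.exists_pt (hGd.mul hHh) (mul_ne_zero hG0 hH0)
    rw [map_mul] at hp1
    refine ⟨p1, left_ne_zero_of_mul hp1, fun j h => ?_⟩
    apply right_ne_zero_of_mul hp1
    rw [← h]
    exact hHP j
  let P1 : Fin (s + 1) → Fin 2 → K := Fin.cons p1 P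
  let w' : Fin (s + 1) → ℕ := Fin.cons 0 w
  let r' : Fin (s + 1) → ℕ := Fin.cons N w
  have hP1 : Function.Injective P1 := by
    rw [Fin.cons_injective_iff]
    refine ⟨?_, hP⟩
    rintro ⟨j, hj⟩
    exact hp1P j hj
  have hw1 : ∀ i, Ord (aff (P1 i)) (w' i) G := by
    intro i
    refine Fin.cases ?_ (fun j => ?_) i
    · show Ord (aff p1) 0 G
      refine ⟨van_zero _ _, fun h => hp1 ?_⟩
      exact van_one'.1 h
    · exact hw j
  obtain ⟨Ls, Q, hC, hlen⟩ := exists_cfg hG hGd hd hP1 hw1 _ r' rfl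
  obtain ⟨k, hk⟩ : ∃ k, k = Ls.length := ⟨_, rfl⟩
  have hk2 : k = N + ∑ j, w j := by
    rw [hk, hlen, Fin.sum_univ_succ]
    rfl
  have hcard : Q.card + ∑ j, w j * w j = d * k := by
    have h1 := hC.card
    rw [Fin.sum_univ_succ, ← hk] at h1
    have h2 : w' 0 * r' 0 = 0 := by
      show 0 * N = 0
      rw [zero_mul]
    rw [h2, zero_add] at h1
    exact h1
  have hwd : ∀ j, w j ≤ d := fun j => van_le hG0 hGd (hw j).1
  have hQN : d * N ≤ Q.card := by
    have h1 : ∑ j, w j * w j ≤ d * ∑ j, w j := by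
      rw [Finset.mul_sum]
      exact Finset.sum_le_sum fun j _ => Nat.mul_le_mul_right _ (hwd j)
    have h2 : d * k = d * N + d * ∑ j, w j := by rw [hk2]; ring
    omega
  have hNd : d * d < d * N := by
    have : d * (d + 1) ≤ d * N := Nat.mul_le_mul_left _ (by omega)
    nlinarith
  have hQne : Q.Nonempty := by
    rw [← Finset.card_pos]
    omega
  let be : Fin s → ℕ := fun i => 2 * w i - 1 - u i
  have hbe : ∀ i, be i = 2 * w i - 1 - u i := fun i => rfl
  let A := VS (fun j => aff (P j)) u d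
  let B := VS (fun j => aff (P j)) be (k - 3)
  have hAf : Module.Finite K ↥A := vs_fin (fun j => aff (P j)) u d
  have hBf : Module.Finite K ↥B := vs_fin (fun j => aff (P j)) be (k - 3)
  have hQP : ∀ j, P j ∉ Q := fun j => hC.disj j.succ
  have hprod : ∀ f ∈ A, ∀ g ∈ B, ∀ j, w j ≠ 0 → Van (aff (P j)) (2 * w j - 1) (f * g) := by
    intro f hf g hg j hj
    have h1 := van_mul (((mem_VS _ _ _ _).1 hf).2 j) (((mem_VS _ _ _ _).1 hg).2 j)
    have h2 : u j + be j = 2 * w j - 1 := by
      have := hu j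
      rw [hbe]
      omega
    rwa [h2] at h1
  have hdual := hC.dual hGd hG0 hw1 (a := d) (b := k - 3) (by rw [← hk]; omega) A B
    (fun f hf => ((mem_VS _ _ _ _).1 hf).1) (fun f hf => ((mem_VS _ _ _ _).1 hf).1) (by
    intro f hf g hg i
    refine Fin.cases ?_ (fun j => ?_) i
    · intro h
      exact absurd rfl h
    · intro hj
      show Van (aff (P j)) (w j + w j - 1) (f * g)
      have h1 := hprod f hf g hg j hj
      rwa [two_mul] at h1)
  -- the kernels
  have hM1 := mult_finite G 0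
  have hdA := ev_dim Q A (mult G 0) (by
    intro f hf hfQ
    have hf' := (mem_VS _ _ _ _).1 hf
    refine mem_mult hGd hG0 hf'.1 ?_ fun _ => by omega
    by_contra hnd
    have hf0 : f ≠ 0 := fun h => hnd (by rw [h]; exact dvd_zero _)
    have h1 := bezQ hP hG hGd (fun j => (hw j).1) hf0 hf'.1 hf'.2 hnd hQP hC.zQ hfQ
    omega)
  rw [mult_finrank hG0] at hdA
  let B0 := B ⊓ LinearMap.ker (ev Q)
  have hB0f : Module.Finite K ↥B0 := Submodule.finiteDimensional_inf_left _ _
  have hdB := ev_dim Q B B0 (fun f hf hfQ => ⟨hf, LinearMap.mem_ker.2 (funext fun q =>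
    hfQ q.1 q.2)⟩)
  obtain ⟨m, hm⟩ : ∃ m, k - 3 = d + m := ⟨k - 3 - d, by omega⟩
  have hkm : k = d + m + 3 := by omega
  -- the multiples of `G`
  let M := (VS (fun j => aff (P j)) (fun i => w i - 1 - u i) m).map (LinearMap.mulLeft K G)
  have hVf : Module.Finite K ↥(VS (fun j => aff (P j)) (fun i => w i - 1 - u i) m) :=
    vs_fin _ _ _
  have hMf : Module.Finite K ↥M := by
    show Module.Finite K ↥((VS (fun j => aff (P j)) (fun i => w i - 1 - u i) m).map
      (LinearMap.mulLeft K G))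
    infer_instance
  have hMd : Module.finrank K ↥M ≤ Module.finrank K
      ↥(VS (fun j => aff (P j)) (fun i => w i - 1 - u i) m) := Submodule.finrank_map_le _ _
  have hMm : ∀ f ∈ B0, G ∣ f → f ∈ M := by
    rintro f ⟨hf, -⟩ hdvd
    have hf' := (mem_VS _ _ _ _).1 hf
    have h1 := mem_mult hGd hG0 hf'.1 hdvd (fun _ => hm.symm)
    obtain ⟨h, hh, rfl⟩ := h1
    refine ⟨h, (mem_VS _ _ _ _).2 ⟨hh, fun j => ?_⟩, rfl⟩
    rcases Nat.lt_or_ge (u j) (w j) with hlt | hge
    · refine van_of_mul (hw j) ?_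
      have h3 : w j + (w j - 1 - u j) = be j := by
        rw [hbe]
        omega
      show Van (aff (P j)) (w j + (w j - 1 - u j)) (G * h)
      rw [h3]
      exact hf'.2 j
    · have h3 : w j - 1 - u j = 0 := by omega
      show Van (aff (P j)) (w j - 1 - u j) h
      rw [h3]
      exact van_zero _ _
  have hcm := hc m (by omega)
  have hdim := le_dim be P (k - 3)
  rw [← vs_eq_forms] at hdim
  have hdim' : (k - 3 + 2).choose 2 ≤ Module.finrank K ↥B + ∑ j, (be j + 1).choose 2 := hdim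
  obtain ⟨J, hJ1, hJ2⟩ := tb hG hGd hd hP1 hw1 (i0 := 0) rfl (r := r') (by
    intro i
    refine Fin.cases ?_ (fun j => ?_) i
    · intro h
      exact absurd rfl h
    · intro _
      rfl) hC (by omega) hQne
  have hJ1' : 2 * J.card + ∑ i, w i * w i + 3 * d ≤ d * d + 2 + ∑ i, w i := by
    have e1 : ∑ i, w' i * w' i = ∑ i, w i * w i := by
      rw [Fin.sum_univ_succ]
      have : w' 0 * w' 0 = 0 := rfl
      rw [this, zero_add]
      rfl
    have e2 : ∑ i, w' i = ∑ i, w i := by
      rw [Fin.sum_univ_succ]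
      have : w' 0 = 0 := rfl
      rw [this, zero_add]
      rfl
    rw [e1, e2] at hJ1
    exact hJ1
  -- the lemma of Hopf
  have hopf : Module.finrank K ↥B0 ≤ Module.finrank K ↥M ∨
      Module.finrank K ↥A + Module.finrank K ↥B0 ≤ Module.finrank K ↥M + 2 + J.card := by
    by_contra hcon
    push Not at hcon
    obtain ⟨hcon1, hcon2⟩ := hcon
    obtain ⟨a, ha⟩ : ∃ a, a = Module.finrank K ↥A := ⟨_, rfl⟩
    have h2' : 2 ≤ Module.finrank K ↥A := h2
    rw [← ha] at hcon2 h2'
    obtain ⟨J1, hJs, hJc⟩ := Finset.exists_subset_card_eq (s := J) (n := min J.card (a - 2))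
      (min_le_left _ _)
    have hJ2c : (J \ J1).card = J.card - min J.card (a - 2) := by
      rw [Finset.card_sdiff_of_subset hJs, hJc]
    obtain ⟨f, hf1, hf2, hf3⟩ := exists_van J1 A (mult G 0) (by
      rw [mult_finrank hG0, ← ha, hJc]
      have : (0 + 2).choose 2 = 1 := rfl
      rw [this]
      omega)
    obtain ⟨g, hg1, hg2, hg3⟩ := exists_van (J \ J1) B0 M (by
      rw [hJ2c]
      omega)
    have hf' := (mem_VS _ _ _ _).1 hf1
    have hg' := (mem_VS _ _ _ _).1 hg1.1
    have hfn : ¬ G ∣ f := fun h => hf2 (mem_mult hGd hG0 hf'.1 h fun _ => by omega)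
    have hgn : ¬ G ∣ g := fun h => hg2 (hMm g hg1 h)
    have hfg : G ∣ f * g := by
      refine hJ2 (f * g) (by rw [← hk]; exact hf'.1.mul hg'.1) ?_ ?_ ?_
      · intro i
        refine Fin.cases ?_ (fun j => ?_) i
        · intro h
          exact absurd rfl h
        · intro hj
          exact hprod f hf1 g hg1.1 j hj
      · intro q hq
        have h5 : eval (aff q) g = 0 := congrFun (LinearMap.mem_ker.1 hg1.2) ⟨q, hq⟩
        rw [map_mul, h5, mul_zero]
      · intro q hq
        rw [map_mul]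
        by_cases hq1 : q ∈ J1
        · rw [hf3 q hq1, zero_mul]
        · rw [hg3 q (Finset.mem_sdiff.2 ⟨hq, hq1⟩), mul_zero]
    rcases hG.prime.dvd_or_dvd hfg with h | h
    · exact hfn h
    · exact hgn h
  -- arithmetic
  have hsum : 2 * ∑ j, (be j + 1).choose 2 + 2 * ∑ j, w j * u j + ∑ j, w j =
      2 * ∑ i, (w i - 1 - u i + 1).choose 2 + 3 * ∑ j, w j * w j := by
    rw [Finset.mul_sum, Finset.mul_sum, Finset.mul_sum, Finset.mul_sum,
      ← Finset.sum_add_distrib, ← Finset.sum_add_distrib, ← Finset.sum_add_distrib]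
    refine Finset.sum_congr rfl fun j _ => ?_
    have ch : ∀ v : ℕ, 2 * (v + 1).choose 2 = (v + 1) * v := by
      intro v
      have := Nat.triangle_succ v
      rw [Nat.choose_two_right, Nat.add_sub_cancel]
      exact Nat.mul_div_cancel' (by
        rw [mul_comm]
        exact (Nat.even_mul_succ_self v).two_dvd)
    rw [ch, ch, hbe]
    have huj := hu j
    rcases Nat.lt_or_ge (u j) (w j) with hlt | hge
    · obtain ⟨v, hv⟩ : ∃ v, w j = u j + v + 1 := ⟨w j - u j - 1, by omega⟩
      have e1 : 2 * w j - 1 - u j = u j + 2 * v + 1 := by omega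
      have e2 : w j - 1 - u j = v := by omega
      rw [e1, e2, hv]
      ring
    · have e0 : u j = w j := by omega
      rcases Nat.eq_zero_or_pos (w j) with h0 | h0
      · rw [e0, h0]
        rfl
      · obtain ⟨v, hv⟩ : ∃ v, w j = v + 1 := ⟨w j - 1, by omega⟩
        have e1 : 2 * w j - 1 - u j = v := by omega
        have e2 : w j - 1 - u j = 0 := by omega
        rw [e1, e2, e0, hv]
        ring
  have c4 : (0 + 2).choose 2 = 1 := rfl
  rw [c4] at hdA
  rw [hm] at hdim'
  rw [hkm] at hcard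
  have c1 : 2 * (d + m + 2).choose 2 = (d + m + 1) * (d + m + 2) := H932R7.two_choose (d + m)
  have c2 : 2 * (m + 2).choose 2 = (m + 1) * (m + 2) := H932R7.two_choose m
  show 2 * Module.finrank K ↥A + 2 * ∑ i, w i * u i + ∑ i, w i ≤
        d * d + 3 * d + 2 + ∑ i, w i * w i ∨
      2 * Module.finrank K ↥A + ∑ i, w i * u i ≤ d * d + 4
  rcases hopf with h | h
  · left
    nlinarith
  · right
    nlinarith

end Pool.Agent.TH167.CL
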