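import Pool.Agent.TH167.CL.Neg
import Pool.Agent.H248R6.Move

set_option autoImplicit false

/-!
# The growth of the leading forms
-/

namespace Pool.Agent.TH167.CL

open MvPolynomial Pool.Agent.W609 Pool.Agent.W609.CR Pool.Agent.TH167.SH Pool.Agent.TH167.TT
  Pool.Agent.TH167.DD Pool.Agent.TH167.T3 Pool.Agent.H248R5 Pool.Agent.H248R6

/-- The exponent `(a, b)`. -/
noncomputable def ex (a b : ℕ) : Fin 2 →₀ ℕ := Finsupp.single 0 a + Finsupp.single 1 b

theorem ex_zero (a b : ℕ) : ex a b 0 = a := by
  unfold ex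
  rw [Finsupp.add_apply, Finsupp.single_eq_same, Finsupp.single_eq_of_ne (by decide), add_zero]

theorem ex_one (a b : ℕ) : ex a b 1 = b := by
  unfold ex
  rw [Finsupp.add_apply, Finsupp.single_eq_same, Finsupp.single_eq_of_ne (by decide), zero_add]

theorem ex_eta (s : Fin 2 →₀ ℕ) : s = ex (s 0) (s 1) := by
  ext i
  fin_cases i
  · exact (ex_zero _ _).symm
  · exact (ex_one _ _).symm

theorem ex_succ_left (a b : ℕ) : ex a b + Finsupp.single 0 1 = ex (a + 1) b := by
  unfold ex
  rw [Finsupp.single_add]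
  abel

theorem ex_succ_right (a b : ℕ) : ex a b + Finsupp.single 1 1 = ex a (b + 1) := by
  unfold ex
  rw [Finsupp.single_add]
  abel

/-- The derivative in the direction `(1, c)`. -/
noncomputable def dd {K : Type} [Field K] (c : ℕ) :
    MvPolynomial (Fin 2) K →ₗ[K] MvPolynomial (Fin 2) K :=
  (pderiv 0 : Derivation K (MvPolynomial (Fin 2) K) (MvPolynomial (Fin 2) K)).toLinearMap +
    (c : K) • (pderiv 1 : Derivation K (MvPolynomial (Fin 2) K) (MvPolynomial (Fin 2) K)).toLinearMap

theorem dd_apply {K : Type} [Field K] (c : ℕ) (F : MvPolynomial (Fin 2) K) :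
    dd c F = pderiv 0 F + (c : K) • pderiv 1 F := rfl

theorem dd_coeff {K : Type} [Field K] {c : ℕ} {F : MvPolynomial (Fin 2) K} (h : dd c F = 0)
    (a b : ℕ) : coeff (ex (a + 1) b) F * (a + 1) + c * (coeff (ex a (b + 1)) F * (b + 1)) = 0 := by
  have h1 := congrArg (coeff (ex a b)) h
  rw [dd_apply, coeff_add, coeff_smul, coeff_pderiv, coeff_pderiv, coeff_zero, ex_succ_left,
    ex_succ_right, ex_zero, ex_one, smul_eq_mul] at h1
  exact h1

/-- The coefficients of a power of a linear form. -/
theorem dd_pow {K : Type} [Field K] [CharZero K] {c M : ℕ} {F : MvPolynomial (Fin 2) K}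
    (h : dd c F = 0) : ∀ k, k ≤ M →
      coeff (ex k (M - k)) F = (M.choose k : K) * (-(c : K)) ^ k * coeff (ex 0 M) F := by
  intro k
  induction k with
  | zero =>
    intro _
    rw [Nat.sub_zero, Nat.choose_zero_right, pow_zero, Nat.cast_one, one_mul, one_mul]
  | succ k ih =>
    intro hk
    have h1 := dd_coeff h k (M - (k + 1))
    have e1 : M - (k + 1) + 1 = M - k := by omega
    rw [e1, ih (by omega)] at h1
    have h2 := Nat.choose_succ_right_eq M k
    have h3 : (M.choose (k + 1) : K) * ((k : K) + 1) = (M.choose k : K) * ((M - k : ℕ) : K) := by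
      have := congrArg (Nat.cast : ℕ → K) h2
      push_cast at this
      exact this
    have e2 : ((M - (k + 1) : ℕ) : K) + 1 = ((M - k : ℕ) : K) := by
      rw [← e1]
      push_cast
      ring
    rw [e2] at h1
    have hk0 : (k : K) + 1 ≠ 0 := Nat.cast_add_one_ne_zero k
    have h4 : (coeff (ex (k + 1) (M - (k + 1))) F - (M.choose (k + 1) : K) * (-(c : K)) ^ (k + 1) *
        coeff (ex 0 M) F) * ((k : K) + 1) = 0 := by
      rw [pow_succ]
      linear_combination h1 - (-(c : K)) ^ k * -(c : K) * coeff (ex 0 M) F * h3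
    exact sub_eq_zero.1 ((mul_eq_zero.1 h4).resolve_right hk0)

theorem dd_ne {K : Type} [Field K] [CharZero K] {c M : ℕ} {F : MvPolynomial (Fin 2) K}
    (hF : F.IsHomogeneous M) (h : dd c F = 0) (h0 : coeff (ex 0 M) F = 0) : F = 0 := by
  ext s
  rw [coeff_zero]
  by_contra hne
  have h1 : s.degree = M := by
    have := hF hne
    rw [← this, Finsupp.degree_eq_weight_one]
    rfl
  have h2 : s 0 + s 1 = M := by
    rw [← h1, Finsupp.degree_eq_sum, Fin.sum_univ_two]
  have h3 := dd_pow (M := M) h (s 0) (by omega)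
  rw [h0, mul_zero] at h3
  apply hne
  rw [ex_eta s]
  have e : M - s 0 = s 1 := by omega
  rw [e] at h3
  exact h3

/-- Some directional derivative is injective on a small space of binary forms. -/
theorem exists_dir {K : Type} [Field K] [CharZero K] {V : Type} [AddCommGroup V] [Module K V]
    [Module.Finite K V] {M h : ℕ} (hh : Module.finrank K V = h) (hM : h ≤ M)
    (L : V →ₗ[K] MvPolynomial (Fin 2) K) (hL : ∀ v, (L v).IsHomogeneous M)
    (hinj : ∀ v, L v = 0 → v = 0) : ∃ c : ℕ, ∀ v, dd c (L v) = 0 → v = 0 := by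
  classical
  by_contra hcon
  push Not at hcon
  choose g hg1 hg2 using hcon
  have hdep : ¬ LinearIndependent K (fun c : Fin (h + 1) => g c.1) := by
    intro hli
    have := hli.fintype_card_le_finrank
    rw [Fintype.card_fin, hh] at this
    omega
  rw [Fintype.not_linearIndependent_iff] at hdep
  obtain ⟨β, hβ, i, hi⟩ := hdep
  have h1 : ∀ k : Fin (h + 1), ∑ c : Fin (h + 1), (β c * coeff (ex 0 M) (L (g c.1))) *
      (-((c.1 : ℕ) : K)) ^ (k : ℕ) = 0 := by
    intro k
    have h2 := congrArg (fun v => coeff (ex k.1 (M - k.1)) (L v)) hβ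
    simp only [map_sum, map_smul, coeff_sum, coeff_smul, smul_eq_mul, map_zero, coeff_zero] at h2
    have hk : k.1 ≤ M := by
      have := k.2
      omega
    have h3 : (M.choose k.1 : K) * ∑ c : Fin (h + 1), (β c * coeff (ex 0 M) (L (g c.1))) *
      (-((c.1 : ℕ) : K)) ^ (k : ℕ) = 0 := by
      rw [← h2, Finset.mul_sum]
      refine Finset.sum_congr rfl fun c _ => ?_
      rw [dd_pow (hg1 c.1) k.1 hk]
      ring
    refine (mul_eq_zero.1 h3).resolve_left ?_
    exact Nat.cast_ne_zero.2 (Nat.choose_pos hk).ne'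
  have h2 := Matrix.eq_zero_of_forall_pow_sum_mul_pow_eq_zero (R := K)
    (f := fun c : Fin (h + 1) => (-((c.1 : ℕ) : K)))
    (v := fun c : Fin (h + 1) => β c * coeff (ex 0 M) (L (g c.1))) (by
      intro a b hab
      have h3 : ((a.1 : ℕ) : K) = ((b.1 : ℕ) : K) := neg_injective hab
      exact Fin.ext (Nat.cast_injective h3)) h1
  have h3 := congrFun h2 i
  rcases mul_eq_zero.1 h3 with h4 | h4
  · exact hi h4
  · exact hg2 i.1 (hinj _ (dd_ne (hL _) (hg1 i.1) h4))

/-- The leading form. -/
noncomputable def lam {K : Type} [Field K] (m : ℕ) (p : Fin 2 → K) :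
    MvPolynomial (Fin 3) K →ₗ[K] MvPolynomial (Fin 2) K :=
  (homogeneousComponent m).comp (tau p).toLinearMap

theorem lam_apply {K : Type} [Field K] (m : ℕ) (p : Fin 2 → K) (G : MvPolynomial (Fin 3) K) :
    lam m p G = homogeneousComponent m (tau p G) := rfl

/-- The growth of the leading forms. -/
theorem grow {K : Type} [Field K] [CharZero K] {s : ℕ} {P : Fin s → Fin 2 → K}
    (hP : AlgebraicIndependent ℚ (fun ij : Fin s × Fin 2 => P ij.1 ij.2))
    {w u : Fin s → ℕ} {d h : ℕ} {k : Fin s} (V0 : Submodule K (MvPolynomial (Fin 3) K))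
    [Module.Finite K ↥V0]
    (hV0 : V0 ≤ VS (fun j => aff (P j)) w d) (hh : Module.finrank K ↥V0 = h) (hM : h ≤ w k)
    (hinj : ∀ G ∈ V0, lam (w k) (P k) G = 0 → G = 0) (huk : u k + 1 = w k)
    (hle : ∀ i, i ≠ k → u i ≤ w i) :
    Module.finrank K ↥(VS (fun j => aff (P j)) (Function.update u k (u k + 1)) d) + h ≤
      Module.finrank K ↥(VS (fun j => aff (P j)) u d) := by
  classical
  obtain ⟨m, hm⟩ : ∃ m, m = u k := ⟨_, rfl⟩
  have hwk : w k = m + 1 := by omega
  obtain ⟨D, hD⟩ := exists_D hP
  let L : ↥V0 →ₗ[K] MvPolynomial (Fin 2) K := (lam (w k) (P k)).comp V0.subtype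
  obtain ⟨c, hc⟩ := exists_dir hh hM L (fun v => homogeneousComponent_isHomogeneous _ _)
    (fun v hv => Subtype.ext (hinj v.1 v.2 hv))
  have hmv : ∀ G ∈ V0, ∃ H ∈ VS (fun j => aff (P j)) u d, lam m (P k) H =
      dd c (lam (w k) (P k) G) := by
    intro G hG
    have hGf := mem_forms_VS.1 (hV0 hG)
    obtain ⟨a1, a2⟩ := move (w := w) (P := P) (d := d) (k := k) hwk (a := 0) (D (k, 0))
      (fun i b => hD (k, 0) i b) hGf
    obtain ⟨b1, b2⟩ := move (w := w) (P := P) (d := d) (k := k) hwk (a := 1) (D (k, 1))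
      (fun i b => hD (k, 1) i b) hGf
    have hle' : ∀ i, u i ≤ Function.update w k m i := by
      intro i
      by_cases hi : i = k
      · rw [hi, Function.update_self, hm]
      · rw [Function.update_of_ne hi]
        exact hle i hi
    rw [← mem_forms_VS] at a1 b1
    refine ⟨-(dG (D (k, 0)) G + (c : K) • dG (D (k, 1)) G), ?_, ?_⟩
    · exact Submodule.neg_mem _ (Submodule.add_mem _ (vs_le hle' a1)
        (Submodule.smul_mem _ _ (vs_le hle' b1)))
    · rw [map_neg, map_add, map_smul, lam_apply, lam_apply, lam_apply, a2, b2, hwk, dd_apply]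
      simp only [smul_neg, neg_add_rev, neg_neg]
      abel
  let V := VS (fun j => aff (P j)) u d
  have hVf : Module.Finite K ↥V := vs_fin (fun j => aff (P j)) u d
  -- the image
  let R := V.map (lam m (P k))
  have hRf : Module.Finite K ↥R := by
    show Module.Finite K ↥(V.map (lam m (P k)))
    infer_instance
  have h1 : h ≤ Module.finrank K ↥R := by
    have e1 : LinearMap.range ((dd c).comp L) ≤ R := by
      rintro _ ⟨v, rfl⟩
      obtain ⟨H, hH, hH2⟩ := hmv v.1 v.2
      exact ⟨H, hH, hH2⟩
    have e2 := Submodule.finrank_mono e1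
    rw [LinearMap.finrank_range_of_inj (by
      rw [← LinearMap.ker_eq_bot, LinearMap.ker_eq_bot']
      intro v hv
      exact hc v hv), hh] at e2
    exact e2
  let Psi : ↥V →ₗ[K] MvPolynomial (Fin 2) K := (lam m (P k)).comp V.subtype
  have h2 := LinearMap.finrank_range_add_finrank_ker Psi
  have h3 : LinearMap.range Psi = R := by
    show LinearMap.range ((lam m (P k)).comp V.subtype) = V.map (lam m (P k))
    rw [LinearMap.range_comp, Submodule.range_subtype]
  rw [h3] at h2
  let V1 := VS (fun j => aff (P j)) (Function.update u k (u k + 1)) d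
  have hV1f : Module.Finite K ↥V1 := vs_fin (fun j => aff (P j)) _ d
  have h4 : Module.finrank K ↥V1 ≤ Module.finrank K ↥(LinearMap.ker Psi) := by
    have hsub : V1 ≤ V := by
      intro f hf
      refine vs_le (fun i => ?_) hf
      by_cases hi : i = k
      · rw [hi, Function.update_self]
        omega
      · rw [Function.update_of_ne hi]
    let io : ↥V1 →ₗ[K] ↥(LinearMap.ker Psi) :=
      { toFun := fun f => ⟨⟨f.1, hsub f.2⟩, by
          rw [LinearMap.mem_ker]
          show homogeneousComponent m (tau (P k) f.1) = 0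
          have hf := (mem_forms.1 (mem_forms_VS.1 f.2)).2 k
          rw [Function.update_self] at hf
          ext t
          rw [coeff_homogeneousComponent, coeff_zero]
          split_ifs with ht
          · exact (mem_pow_idealOfVars_iff' _ _).1 hf t (by omega)
          · rfl⟩
        map_add' := fun f g => rfl
        map_smul' := fun c f => rfl }
    refine LinearMap.finrank_le_finrank_of_injective (f := io) ?_
    intro f g hfg
    exact Subtype.ext (congrArg (fun x : ↥(LinearMap.ker Psi) => x.1.1) hfg)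
  show Module.finrank K ↥V1 + h ≤ Module.finrank K ↥V
  omega

end Pool.Agent.TH167.CL
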