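import Pool.Agent.TH167.CL.Cliff
import Pool.Agent.TH167.T3.Nine

set_option autoImplicit false

/-!
# Negative curves: the theorem of Clifford and the spread of the singular points
-/

namespace Pool.Agent.TH167.CL

open MvPolynomial Pool.Agent.W609 Pool.Agent.W609.CR Pool.Agent.TH167.SH Pool.Agent.TH167.TT
  Pool.Agent.TH167.DD Pool.Agent.TH167.T3

theorem hc_zero {K : Type} [Field K] {s : ℕ} (P : Fin s → Fin 2 → K) {c : Fin s → ℕ}
    (hc : ∀ i, c i = 0) (m : ℕ) : Module.finrank K ↥(VS (fun j => aff (P j)) c m) +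
      ∑ i, (c i + 1).choose 2 ≤ (m + 2).choose 2 := by
  have h1 : ∑ i, (c i + 1).choose 2 = 0 := Finset.sum_eq_zero fun i _ => by rw [hc i]; rfl
  have h2 : Module.Finite K ↥(homogeneousSubmodule (Fin 3) K m) :=
    Module.Finite.iff_fg.2 (homogeneousSubmodule_fg _ _ m)
  have h3 : VS (fun j => aff (P j)) c m ≤ homogeneousSubmodule (Fin 3) K m := fun f hf =>
    ((mem_VS _ _ _ _).1 hf).1
  have h4 := Submodule.finrank_mono h3
  rw [H248R6.finrank_homog (K := K) m] at h4
  omega

theorem hc_one {K : Type} [Field K] {s : ℕ} (P : Fin s → Fin 2 → K) {c : Fin s → ℕ}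
    {i0 : Fin s} (h0 : c i0 = 1) (hc : ∀ i, i ≠ i0 → c i = 0) (m : ℕ) :
    Module.finrank K ↥(VS (fun j => aff (P j)) c m) +
      ∑ i, (c i + 1).choose 2 ≤ (m + 2).choose 2 := by
  have h1 : ∑ i, (c i + 1).choose 2 = 1 := by
    rw [Finset.sum_eq_single i0]
    · rw [h0]
      rfl
    · intro i _ hi
      rw [hc i hi]
      rfl
    · intro h
      exact absurd (Finset.mem_univ _) h
  have h2 : Module.Finite K ↥(homogeneousSubmodule (Fin 3) K m) :=
    Module.Finite.iff_fg.2 (homogeneousSubmodule_fg _ _ m)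
  have h3 : VS (fun j => aff (P j)) c m < homogeneousSubmodule (Fin 3) K m := by
    refine lt_of_le_of_ne (fun f hf => ((mem_VS _ _ _ _).1 hf).1) fun h => ?_
    have h4 : (X 2 ^ m : MvPolynomial (Fin 3) K) ∈ homogeneousSubmodule (Fin 3) K m :=
      isHomogeneous_X_pow 2 m
    rw [← h] at h4
    have h5 := ((mem_VS _ _ _ _).1 h4).2 i0
    rw [h0, van_one', map_pow, eval_X] at h5
    have h6 : aff (P i0) 2 = 1 := rfl
    rw [h6, one_pow] at h5
    exact one_ne_zero h5
  have h4 := Submodule.finrank_lt_finrank_of_lt h3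
  rw [H248R6.finrank_homog (K := K) m] at h4
  omega

/-- A negative curve is rigid. -/
theorem neg_one {K : Type} [Field K] {s : ℕ} {P : Fin s → Fin 2 → K}
    (hP : Function.Injective P) {w : Fin s → ℕ} {e : ℕ} {G : MvPolynomial (Fin 3) K}
    (hG : Irreducible G) (hGe : G.IsHomogeneous e) (hord : ∀ j, Ord (aff (P j)) (w j) G)
    (hneg : ip e w e w < 0) : Module.finrank K ↥(VS (fun j => aff (P j)) w e) = 1 := by
  have hGm : G ∈ VS (fun j => aff (P j)) w e := (mem_VS _ _ _ _).2 ⟨hGe, fun j => (hord j).1⟩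
  have hM := mult_finite G 0
  have h1 : VS (fun j => aff (P j)) w e ≤ mult G 0 := by
    intro f hf
    have hf' := (mem_VS _ _ _ _).1 hf
    refine mem_mult hGe hG.ne_zero hf'.1 ?_ fun _ => by omega
    by_contra hnd
    have hf0 : f ≠ 0 := fun h => hnd (by rw [h]; exact dvd_zero _)
    have h2 := bez hP (u := w) (w := w) hG hGe (fun j => (hord j).1) hf0 hf'.1 hf'.2 hnd
    unfold ip at hneg
    have h3 : ((∑ j, w j * w j : ℕ) : ℤ) ≤ ((e * e : ℕ) : ℤ) := by exact_mod_cast h2
    push_cast at h3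
    linarith
  have h2 := Submodule.finrank_mono h1
  rw [mult_finrank hG.ne_zero] at h2
  have h3 : (0 + 2).choose 2 = 1 := rfl
  have h4 := pos_of_mem hGm hG.ne_zero
  omega

/-- The theorem of Clifford and the spread of the singular points. -/
theorem cs {K : Type} [Field K] [CharZero K] [IsAlgClosed K] {r e : ℕ} (he : 2 ≤ e)
    {w : Fin (r + 4) → ℕ} (S : Finset (Fin (r + 4))) {P : Fin (r + 4) → Fin 2 → K}
    (hP : AlgebraicIndependent ℚ (fun ij : Fin (r + 4) × Fin 2 => P ij.1 ij.2))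
    {G : MvPolynomial (Fin 3) K} (hG : Irreducible G) (hGe : G.IsHomogeneous e)
    (hord : ∀ j, Ord (aff (P j)) (w j) G) {n : ℕ}
    (hn : Module.finrank K ↥(VS (fun j => aff (P j)) w e) = n + 1) (hpos : 1 ≤ n + nm S w) :
    2 * (n + nm S w) + ∑ j, w j * w j + ∑ j, w j ≤
        e * e + 3 * e + 2 * ∑ j, (if j ∈ S then 0 else w j) ∨
      2 * (n + nm S w) + ∑ j, w j * w j ≤ e * e + 2 + ∑ j, (if j ∈ S then 0 else w j) := by
  classical
  have hGm : G ∈ VS (fun j => aff (P j)) w e := (mem_VS _ _ _ _).2 ⟨hGe, fun j => (hord j).1⟩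
  have h1 := spread he hG n r w S P hGm hn K P hP hn
  have h2 := cliff hG hGe he (inj_of_alg hP) hord (u := al S w) (fun i => by
    unfold al
    split_ifs <;> omega) ⟨0, fun m _ => hc_zero P (fun i => by
    unfold al
    split_ifs <;> omega) m⟩ (by omega)
  have h3 : ∑ j, w j * al S w j + ∑ j, (if j ∈ S then 0 else w j) = ∑ j, w j * w j := by
    rw [← Finset.sum_add_distrib]
    refine Finset.sum_congr rfl fun j _ => ?_
    unfold al
    split_ifs
    · omega
    · rcases Nat.eq_zero_or_pos (w j) with h | h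
      · rw [h]
      · obtain ⟨v, hv⟩ : ∃ v, w j = v + 1 := ⟨w j - 1, by omega⟩
        rw [hv, Nat.add_sub_cancel]
        ring
  rcases h2 with h2 | h2
  · left
    omega
  · right
    omega

/-- Triple points. -/
theorem cs3 {K : Type} [Field K] [CharZero K] [IsAlgClosed K] {r e : ℕ} (he : 2 ≤ e)
    {w : Fin (r + 4) → ℕ} {j0 : Fin (r + 4)} (hj0 : w j0 = 3) {P : Fin (r + 4) → Fin 2 → K}
    (hP : AlgebraicIndependent ℚ (fun ij : Fin (r + 4) × Fin 2 => P ij.1 ij.2))
    {G : MvPolynomial (Fin 3) K} (hG : Irreducible G) (hGe : G.IsHomogeneous e)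
    (hord : ∀ j, Ord (aff (P j)) (w j) G)
    (hn : Module.finrank K ↥(VS (fun j => aff (P j)) w e) = 1) :
    ∑ j, w j * w j + ∑ j, w j ≤ e * e + 3 * e + 4 ∨ ∑ j, w j * w j ≤ e * e := by
  classical
  have hGm : G ∈ VS (fun j => aff (P j)) w e := (mem_VS _ _ _ _).2 ⟨hGe, fun j => (hord j).1⟩
  obtain ⟨S, hS⟩ : ∃ S : Finset (Fin (r + 4)), S = Finset.univ.erase j0 := ⟨_, rfl⟩
  have hSm : ∀ j, j ∈ S ↔ j ≠ j0 := fun j => by
    rw [hS, Finset.mem_erase]
    simp
  have hnm : ∀ v : Fin (r + 4) → ℕ, nm S v = min (v j0) 2 := by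
    intro v
    unfold nm
    rw [Finset.sum_eq_single j0]
    · rw [if_neg (fun h => (hSm j0).1 h rfl)]
    · intro j _ hj
      rw [if_pos ((hSm j).2 hj)]
    · intro h
      exact absurd (Finset.mem_univ _) h
  obtain ⟨w1, hw1⟩ : ∃ w1, w1 = al S w := ⟨_, rfl⟩
  obtain ⟨u, hu⟩ : ∃ u, u = al S w1 := ⟨_, rfl⟩
  have e1 : w1 j0 = 2 := by
    rw [hw1]
    unfold al
    rw [if_neg (fun h => (hSm j0).1 h rfl), hj0]
  have e2 : u j0 = 1 := by
    rw [hu]
    unfold al
    rw [if_neg (fun h => (hSm j0).1 h rfl), e1]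
  have e3 : ∀ j, j ≠ j0 → w1 j = w j := by
    intro j hj
    rw [hw1]
    unfold al
    rw [if_pos ((hSm j).2 hj)]
  have e4 : ∀ j, j ≠ j0 → u j = w j := by
    intro j hj
    rw [hu]
    unfold al
    rw [if_pos ((hSm j).2 hj), e3 j hj]
  have hle : ∀ j, w1 j ≤ w j := by
    intro j
    by_cases hj : j = j0
    · rw [hj, e1, hj0]
      omega
    · rw [e3 j hj]
  have h1 := spread he hG 0 r w S P hGm hn K P hP hn
  rw [hnm, hj0, ← hw1] at h1
  have hGm1 : G ∈ VS (fun j => aff (P j)) w1 e := vs_le hle hGm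
  obtain ⟨n, hn1⟩ : ∃ n, Module.finrank K ↥(VS (fun j => aff (P j)) w1 e) = n + 1 :=
    ⟨Module.finrank K ↥(VS (fun j => aff (P j)) w1 e) - 1, by omega⟩
  have h2 := spread he hG n r w1 S P hGm1 hn1 K P hP hn1
  rw [hnm, e1, ← hu] at h2
  have h3 := cliff hG hGe he (inj_of_alg hP) hord (u := u) (fun i => by
    by_cases hj : i = j0
    · rw [hj, e2, hj0]
      omega
    · rw [e4 i hj]) ⟨0, fun m _ => hc_one P (i0 := j0) (by rw [e2, hj0]) (fun i hi => by
        rw [e4 i hi]
        omega) m⟩ (by omega)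
  have h4 : ∑ j, w j * u j + 6 = ∑ j, w j * w j := by
    rw [← Finset.add_sum_erase _ _ (Finset.mem_univ j0),
      ← Finset.add_sum_erase Finset.univ (fun j => w j * w j) (Finset.mem_univ j0)]
    have h5 : ∑ j ∈ Finset.univ.erase j0, w j * u j = ∑ j ∈ Finset.univ.erase j0, w j * w j := by
      refine Finset.sum_congr rfl fun j hj => ?_
      rw [e4 j (Finset.ne_of_mem_erase hj)]
    rw [h5]
    simp only [e2, hj0]
    omega
  have h6 : min 3 2 = 2 := rfl
  have h7 : min 2 2 = 2 := rfl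
  rw [h6] at h1
  rw [h7] at h2
  rcases h3 with h3 | h3
  · left
    omega
  · right
    omega

/-- Negative curves other than `(-1)`-curves have no double point, no triple point and at most one
simple point among the blown up points. -/
theorem neg_cl {K : Type} [Field K] [CharZero K] [IsAlgClosed K] {r e : ℕ}
    {w : Fin (r + 4) → ℕ} {P : Fin (r + 4) → Fin 2 → K}
    (hP : AlgebraicIndependent ℚ (fun ij : Fin (r + 4) × Fin 2 => P ij.1 ij.2))
    {G : MvPolynomial (Fin 3) K} (hG : Irreducible G) (hGe : G.IsHomogeneous e)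
    (hord : ∀ j, Ord (aff (P j)) (w j) G) (hneg : ip e w e w < 0)
    (hne : ¬ (ip e w e w = -1 ∧ kk e w = 1)) :
    (∀ j, w j ≠ 0 → 4 ≤ w j) ∨
      (ip e w e w = -1 ∧ ∃ j0, w j0 = 1 ∧ ∀ j, j ≠ j0 → w j ≠ 0 → 4 ≤ w j) := by
  classical
  have hsum : ¬ ∑ j ∈ Finset.univ.filter (fun j => 3 < w j), w j < 3 * e := fun h =>
    hne (neg3 h hP hG hGe hord hneg)
  push Not at hsum
  rcases Nat.lt_or_ge e 2 with he | he
  · exfalso
    have he0 := deg_pos hG hGe
    have h1 : ∑ j ∈ Finset.univ.filter (fun j => 3 < w j), w j = 0 := by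
      refine Finset.sum_eq_zero fun j hj => ?_
      rw [Finset.mem_filter] at hj
      have := van_le hG.ne_zero hGe (hord j).1
      omega
    omega
  have hn := neg_one (inj_of_alg hP) hG hGe hord hneg
  by_cases hall : ∀ j, w j ≠ 0 → 4 ≤ w j
  · exact Or.inl hall
  right
  push Not at hall
  obtain ⟨j0, hj0, hj4⟩ := hall
  obtain ⟨S, hS⟩ : ∃ S : Finset (Fin (r + 4)), S = Finset.univ.filter fun j => ¬ w j < 4 :=
    ⟨_, rfl⟩
  have hSm : ∀ j, j ∈ S ↔ 4 ≤ w j := fun j => by
    rw [hS, Finset.mem_filter]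
    simp
  obtain ⟨R1, hR1⟩ : ∃ R : Finset (Fin (r + 4)), R = Finset.univ.filter fun j => w j = 1 :=
    ⟨_, rfl⟩
  obtain ⟨R2, hR2⟩ : ∃ R : Finset (Fin (r + 4)), R = Finset.univ.filter fun j => w j = 2 :=
    ⟨_, rfl⟩
  obtain ⟨R3, hR3⟩ : ∃ R : Finset (Fin (r + 4)), R = Finset.univ.filter fun j => w j = 3 :=
    ⟨_, rfl⟩
  have hnm : nm S w = R1.card + 2 * R2.card + 2 * R3.card := by
    unfold nm
    rw [hR1, hR2, hR3, Finset.card_filter, Finset.card_filter, Finset.card_filter,
      Finset.mul_sum, Finset.mul_sum, ← Finset.sum_add_distrib, ← Finset.sum_add_distrib]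
    refine Finset.sum_congr rfl fun j _ => ?_
    by_cases hj : j ∈ S
    · have := (hSm j).1 hj
      rw [if_pos hj, if_neg (by omega), if_neg (by omega), if_neg (by omega)]
      rfl
    · have : ¬ 4 ≤ w j := fun h => hj ((hSm j).2 h)
      rw [if_neg hj]
      split_ifs <;> omega
  have hR : ∑ j, (if j ∈ S then 0 else w j) = R1.card + 2 * R2.card + 3 * R3.card := by
    rw [hR1, hR2, hR3, Finset.card_filter, Finset.card_filter, Finset.card_filter,
      Finset.mul_sum, Finset.mul_sum, ← Finset.sum_add_distrib, ← Finset.sum_add_distrib]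
    refine Finset.sum_congr rfl fun j _ => ?_
    by_cases hj : j ∈ S
    · have := (hSm j).1 hj
      rw [if_pos hj, if_neg (by omega), if_neg (by omega), if_neg (by omega)]
      rfl
    · have : ¬ 4 ≤ w j := fun h => hj ((hSm j).2 h)
      rw [if_neg hj]
      split_ifs <;> omega
  have hW : ∑ j, w j = ∑ j ∈ Finset.univ.filter (fun j => 3 < w j), w j +
      ∑ j, (if j ∈ S then 0 else w j) := by
    rw [Finset.sum_filter, ← Finset.sum_add_distrib]
    refine Finset.sum_congr rfl fun j _ => ?_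
    by_cases hj : j ∈ S
    · have := (hSm j).1 hj
      rw [if_pos (by omega), if_pos hj, add_zero]
    · have : ¬ 4 ≤ w j := fun h => hj ((hSm j).2 h)
      rw [if_neg (by omega), if_neg hj, zero_add]
  have hone : 1 ≤ R1.card + R2.card + R3.card := by
    have h1 : w j0 = 1 ∨ w j0 = 2 ∨ w j0 = 3 := by omega
    rcases h1 with h1 | h1 | h1
    · have : 0 < R1.card := Finset.card_pos.2 ⟨j0, by rw [hR1, Finset.mem_filter]; exact ⟨Finset.mem_univ _, h1⟩⟩
      omega
    · have : 0 < R2.card := Finset.card_pos.2 ⟨j0, by rw [hR2, Finset.mem_filter]; exact ⟨Finset.mem_univ _, h1⟩⟩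
      omega
    · have : 0 < R3.card := Finset.card_pos.2 ⟨j0, by rw [hR3, Finset.mem_filter]; exact ⟨Finset.mem_univ _, h1⟩⟩
      omega
  have hip : ip e w e w = (e * e : ℕ) - ((∑ j, w j * w j : ℕ) : ℤ) := by
    unfold ip
    push_cast
    rfl
  have hlt : e * e < ∑ j, w j * w j := by
    rw [hip] at hneg
    have : ((e * e : ℕ) : ℤ) < ((∑ j, w j * w j : ℕ) : ℤ) := by linarith
    exact_mod_cast this
  have h1 := cs he S hP hG hGe hord (n := 0) hn (by omega)
  rw [hnm, hR] at h1
  have h2 : R1.card + 2 * R2.card + R3.card ≤ 1 := by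
    rcases h1 with h1 | h1
    · exfalso
      rw [hR] at hW
      omega
    · omega
  have hR2c : R2.card = 0 := by omega
  rcases Nat.eq_zero_or_pos R3.card with hR3c | hR3c
  · -- one simple point
    have hR1c : R1.card = 1 := by omega
    refine ⟨?_, ?_⟩
    · rcases h1 with h1 | h1
      · exfalso
        rw [hR] at hW
        omega
      · have h3 : ∑ j, w j * w j ≤ e * e + 1 := by omega
        rw [hip] at hneg ⊢
        have : ((∑ j, w j * w j : ℕ) : ℤ) ≤ ((e * e + 1 : ℕ) : ℤ) := by exact_mod_cast h3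
        push_cast at this hneg ⊢
        linarith
    · obtain ⟨j1, hj1⟩ := Finset.card_eq_one.1 hR1c
      have hj1m : j1 ∈ R1 := by rw [hj1]; exact Finset.mem_singleton_self _
      rw [hR1, Finset.mem_filter] at hj1m
      refine ⟨j1, hj1m.2, fun j hj hj0' => ?_⟩
      by_contra hcon
      have h3 : w j = 1 ∨ w j = 2 ∨ w j = 3 := by omega
      rcases h3 with h3 | h3 | h3
      · have : j ∈ R1 := by rw [hR1, Finset.mem_filter]; exact ⟨Finset.mem_univ _, h3⟩
        rw [hj1, Finset.mem_singleton] at this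
        exact hj this
      · have : j ∈ R2 := by rw [hR2, Finset.mem_filter]; exact ⟨Finset.mem_univ _, h3⟩
        rw [Finset.card_eq_zero.1 hR2c] at this
        exact absurd this (Finset.notMem_empty _)
      · have : j ∈ R3 := by rw [hR3, Finset.mem_filter]; exact ⟨Finset.mem_univ _, h3⟩
        rw [Finset.card_eq_zero.1 hR3c] at this
        exact absurd this (Finset.notMem_empty _)
  · -- a triple point
    exfalso
    obtain ⟨j1, hj1⟩ := Finset.card_pos.1 hR3c
    rw [hR3, Finset.mem_filter] at hj1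
    have h3 := cs3 he hj1.2 hP hG hGe hord hn
    rcases h3 with h3 | h3
    · rw [hR] at hW
      have hkk := kk_cast e w
      have hA : (∑ j, w j * w j : ℕ) = e * e + 1 ∧ (∑ j, w j : ℕ) = 3 * e + 3 := by
        omega
      have h4 : ip e w e w = -1 := by
        rw [hip, hA.1]
        push_cast
        ring
      have h5 : kk e w = -3 := by
        rw [hkk, hA.2]
        push_cast
        ring
      rcases irr_std e P hP w G hG hGe hord with h | ⟨P1, e1, w1, G1, a1, a2, a3, a4, a5, a6, a7,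
        a8, a9⟩
      · exact hne h
      · refine std_neg a5 a1 a2 a3 a4 (Or.inr ⟨by omega, by omega, ?_⟩)
        rcases a9 with a9 | a9
        · exact Or.inl a9
        · exact Or.inr ⟨j1, a9 j1 hj1.2⟩
    · omega

end Pool.Agent.TH167.CL
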