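import Pool.Agent.TH167.CL.Grow

set_option autoImplicit false

/-!
# Negative curves: small multiplicities and the genus
-/

namespace Pool.Agent.TH167.CL

open MvPolynomial Pool.Agent.W609 Pool.Agent.W609.CR Pool.Agent.TH167.SH Pool.Agent.TH167.TT
  Pool.Agent.TH167.DD Pool.Agent.TH167.T3 Pool.Agent.H248R5 Pool.Agent.H248R6

/-- The multiplicities are lowered by one on `T`. -/
def dr {s : ℕ} (T : Finset (Fin s)) (w : Fin s → ℕ) : Fin s → ℕ :=
  fun i => if i ∈ T then w i - 1 else w i

theorem al_compl {s : ℕ} (T : Finset (Fin s)) (w : Fin s → ℕ) :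
    al (Finset.univ \ T) w = dr T w := by
  funext i
  unfold al dr
  by_cases hi : i ∈ T
  · rw [if_pos hi, if_neg (fun h => (Finset.mem_sdiff.1 h).2 hi)]
  · rw [if_neg hi, if_pos (Finset.mem_sdiff.2 ⟨Finset.mem_univ _, hi⟩)]

theorem nm_compl {s : ℕ} (T : Finset (Fin s)) (w : Fin s → ℕ) :
    nm (Finset.univ \ T) w = ∑ i ∈ T, min (w i) 2 := by
  classical
  unfold nm
  rw [← Finset.sum_filter_add_sum_filter_not Finset.univ (fun i => i ∈ T)]
  have h1 : ∑ i ∈ Finset.univ.filter (fun i => i ∉ T),
      (if i ∈ Finset.univ \ T then 0 else min (w i) 2) = 0 := by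
    refine Finset.sum_eq_zero fun i hi => ?_
    rw [if_pos (Finset.mem_sdiff.2 ⟨Finset.mem_univ _, (Finset.mem_filter.1 hi).2⟩)]
  rw [h1, add_zero, Finset.filter_mem_eq_inter, Finset.univ_inter]
  refine Finset.sum_congr rfl fun i hi => ?_
  rw [if_neg (fun h => (Finset.mem_sdiff.1 h).2 hi)]

theorem sum_dr {s : ℕ} (T : Finset (Fin s)) (w : Fin s → ℕ) :
    ∑ i, w i * dr T w i + ∑ i ∈ T, w i = ∑ i, w i * w i := by
  classical
  have h1 : ∑ i ∈ T, w i = ∑ i, if i ∈ T then w i else 0 := by
    rw [Finset.sum_ite_mem, Finset.univ_inter]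
  rw [h1, ← Finset.sum_add_distrib]
  refine Finset.sum_congr rfl fun i _ => ?_
  unfold dr
  by_cases hi : i ∈ T
  · rw [if_pos hi, if_pos hi]
    rcases Nat.eq_zero_or_pos (w i) with h | h
    · rw [h]
    · obtain ⟨v, hv⟩ : ∃ v, w i = v + 1 := ⟨w i - 1, by omega⟩
      rw [hv, Nat.add_sub_cancel]
      ring
  · rw [if_neg hi, if_neg hi]
    omega

/-- A subspace of given dimension. -/
theorem exists_sub {K E : Type} [Field K] [AddCommGroup E] [Module K E] (V : Submodule K E)
    [Module.Finite K ↥V] {n : ℕ} (h : n ≤ Module.finrank K ↥V) :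
    ∃ V0 : Submodule K E, V0 ≤ V ∧ Module.finrank K ↥V0 = n := by
  let b := Module.finBasis K ↥V
  let v : Fin n → E := fun i => (b (Fin.castLE h i)).1
  have hli : LinearIndependent K v :=
    (b.linearIndependent.comp (Fin.castLE h) (Fin.castLE_injective h)).map' V.subtype
      (Submodule.ker_subtype V)
  refine ⟨Submodule.span K (Set.range v), ?_, ?_⟩
  · rw [Submodule.span_le]
    rintro _ ⟨i, rfl⟩
    exact (b (Fin.castLE h i)).2
  · rw [finrank_span_eq_card hli, Fintype.card_fin]

/-- The sections of `C + E j` on a negative curve are determined by their leading forms at a point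
of at least the same multiplicity. -/
theorem neg_inj {K : Type} [Field K] [CharZero K] [IsAlgClosed K] {s e : ℕ}
    {w : Fin s → ℕ} {P : Fin s → Fin 2 → K} (hP : Function.Injective P)
    {G : MvPolynomial (Fin 3) K} (hG : Irreducible G) (hGe : G.IsHomogeneous e)
    (hord : ∀ j, Ord (aff (P j)) (w j) G) (hneg : ip e w e w < 0) {j i : Fin s} (hij : i ≠ j)
    (hji : w j ≤ w i) {f : MvPolynomial (Fin 3) K}
    (hf : f ∈ VS (fun j => aff (P j)) (dr {j} w) e) (hl : lam (w i) (P i) f = 0) : f = 0 := by
  classical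
  by_contra hf0
  have hdi : dr {j} w i = w i := by
    unfold dr
    rw [if_neg (by rwa [Finset.mem_singleton])]
  obtain ⟨v, hv⟩ : ∃ v, v = Function.update (dr {j} w) i (w i + 1) := ⟨_, rfl⟩
  have hvi : v i = w i + 1 := by rw [hv, Function.update_self]
  have hfv : f ∈ VS (fun j => aff (P j)) v e := by
    rw [mem_forms_VS]
    refine back (k := i) (m := w i) hvi ?_ hl
    have h1 : Function.update v i (w i) = dr {j} w := by
      rw [hv, Function.update_idem]
      rw [← hdi, Function.update_eq_self]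
    rw [h1]
    exact mem_forms_VS.1 hf
  have hf' := (mem_VS _ _ _ _).1 hfv
  by_cases hd : G ∣ f
  · have h1 := mem_mult (m := 0) hGe hG.ne_zero hf'.1 hd fun _ => by omega
    obtain ⟨c, hc, hcf⟩ := h1
    have hc' : c.IsHomogeneous 0 := hc
    obtain ⟨a, ha⟩ : ∃ a, c = C a := ⟨_, (totalDegree_eq_zero_iff_eq_C.1 (by
      have := hc'.totalDegree_le
      omega))⟩
    have hcf' : G * c = f := hcf
    have ha0 : a ≠ 0 := by
      intro h
      apply hf0
      rw [← hcf', ha, h, C_0, mul_zero]
    have h2 : Van (aff (P i)) (w i + 1) f := by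
      rw [← hvi]
      exact hf'.2 i
    apply (hord i).2
    have h3 : G = C a⁻¹ * f := by
      rw [← hcf', ha, mul_comm G, ← mul_assoc, ← C_mul, inv_mul_cancel₀ ha0, C_1, one_mul]
    rw [h3]
    exact Ideal.mul_mem_left _ _ h2
  · have h1 := bez hP (u := w) (w := v) hG hGe (fun j => (hord j).1) hf0 hf'.1 hf'.2 hd
    have h2 : ∑ l, w l * v l = ∑ l, w l * dr {j} w l + w i := by
      rw [← Finset.add_sum_erase _ _ (Finset.mem_univ i),
        ← Finset.add_sum_erase Finset.univ (fun l => w l * dr {j} w l) (Finset.mem_univ i)]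
      have h3 : ∑ l ∈ Finset.univ.erase i, w l * v l =
          ∑ l ∈ Finset.univ.erase i, w l * dr {j} w l := by
        refine Finset.sum_congr rfl fun l hl => ?_
        rw [hv, Function.update_of_ne (Finset.ne_of_mem_erase hl)]
      rw [h3]
      simp only [hvi, hdi]
      ring
    have h3 := sum_dr {j} w
    rw [Finset.sum_singleton] at h3
    unfold ip at hneg
    have h4 : e * e < ∑ l, w l * w l := by
      have : ((e * e : ℕ) : ℤ) < ((∑ l, w l * w l : ℕ) : ℤ) := by
        push_cast
        linarith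
      exact_mod_cast this
    omega

/-- The growth of the systems `C + E j + ∑ E i` on a negative curve `C`. -/
theorem neg_grow {K : Type} [Field K] [CharZero K] [IsAlgClosed K] {r e : ℕ} (he : 2 ≤ e)
    {w : Fin (r + 4) → ℕ} {P : Fin (r + 4) → Fin 2 → K}
    (hP : AlgebraicIndependent ℚ (fun ij : Fin (r + 4) × Fin 2 => P ij.1 ij.2))
    {G : MvPolynomial (Fin 3) K} (hG : Irreducible G) (hGe : G.IsHomogeneous e)
    (hord : ∀ j, Ord (aff (P j)) (w j) G) (hneg : ip e w e w < 0) {j : Fin (r + 4)}
    (hj : 3 ≤ w j) (B : Finset (Fin (r + 4))) (hB : ∀ i ∈ B, i ≠ j ∧ w j ≤ w i) :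
    3 + 3 * B.card ≤ Module.finrank K ↥(VS (fun j => aff (P j)) (dr (insert j B) w) e) := by
  classical
  have hGm : G ∈ VS (fun j => aff (P j)) w e := (mem_VS _ _ _ _).2 ⟨hGe, fun j => (hord j).1⟩
  have hn := neg_one (inj_of_alg hP) hG hGe hord hneg
  have h1 := T3.spread he hG 0 r w (Finset.univ \ {j}) P hGm hn K P hP hn
  rw [nm_compl, al_compl, Finset.sum_singleton] at h1
  have hV := vs_fin (fun j => aff (P j)) (dr {j} w) e
  obtain ⟨V0, hV0, hV0r⟩ := exists_sub (VS (fun j => aff (P j)) (dr {j} w) e) (n := 3)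
    (by omega)
  have hV0f : Module.Finite K ↥V0 := Submodule.finiteDimensional_of_le hV0
  induction B using Finset.induction_on with
  | empty =>
    rw [Finset.card_empty]
    show 3 + 3 * 0 ≤ Module.finrank K ↥(VS (fun j => aff (P j)) (dr {j} w) e)
    omega
  | insert b B hb ih =>
    have hb2 := hB b (Finset.mem_insert_self _ _)
    have ih' := ih fun i hi => hB i (Finset.mem_insert_of_mem hi)
    have hbj : b ∉ insert j B := by
      rw [Finset.mem_insert, not_or]
      exact ⟨hb2.1, hb⟩
    have e1 : dr {j} w b = w b := by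
      unfold dr
      rw [if_neg (by rw [Finset.mem_singleton]; exact hb2.1)]
    have e2 : dr (insert j (insert b B)) w b + 1 = w b := by
      unfold dr
      rw [if_pos (Finset.mem_insert_of_mem (Finset.mem_insert_self _ _))]
      omega
    have e3 : Function.update (dr (insert j (insert b B)) w) b
        (dr (insert j (insert b B)) w b + 1) = dr (insert j B) w := by
      rw [e2]
      funext i
      by_cases hi : i = b
      · rw [hi, Function.update_self]
        unfold dr
        rw [if_neg hbj]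
      · rw [Function.update_of_ne hi]
        unfold dr
        have : i ∈ insert j (insert b B) ↔ i ∈ insert j B := by
          simp only [Finset.mem_insert]
          tauto
        simp only [this]
    have h2 := grow hP V0 hV0 hV0r (k := b) (u := dr (insert j (insert b B)) w) (by
      rw [e1]
      omega) (fun f hf hl => neg_inj (inj_of_alg hP) hG hGe hord hneg hb2.1 hb2.2 (hV0 hf) (by
        rwa [e1] at hl)) (by rw [e1, e2]) (fun i hi => by
        unfold dr
        by_cases h3 : i = j
        · rw [if_pos (by rw [h3]; exact Finset.mem_insert_self _ _),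
            if_pos (by rw [h3]; exact Finset.mem_singleton_self _)]
        · have hnj : i ∉ ({j} : Finset (Fin (r + 4))) := by rwa [Finset.mem_singleton]
          rw [if_neg hnj]
          split_ifs <;> omega)
    rw [e3] at h2
    rw [Finset.card_insert_of_notMem hb]
    omega

/-- The inequality of Clifford for the systems `C + E j + ∑ E i`. -/
theorem neg_ineq {K : Type} [Field K] [CharZero K] [IsAlgClosed K] {r e : ℕ} (he : 2 ≤ e)
    {w : Fin (r + 4) → ℕ} {P : Fin (r + 4) → Fin 2 → K}
    (hP : AlgebraicIndependent ℚ (fun ij : Fin (r + 4) × Fin 2 => P ij.1 ij.2))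
    {G : MvPolynomial (Fin 3) K} (hG : Irreducible G) (hGe : G.IsHomogeneous e)
    (hord : ∀ j, Ord (aff (P j)) (w j) G) (hneg : ip e w e w < 0) {j : Fin (r + 4)}
    (hj : 3 ≤ w j) (B R : Finset (Fin (r + 4))) (hB : ∀ i ∈ B, i ≠ j ∧ w j ≤ w i)
    (hR : ∀ i ∈ R, w i = 1) :
    6 + 6 * B.card + ∑ i, w i * w i + ∑ i, w i ≤
        e * e + 3 * e + 2 + 2 * w j + 2 * ∑ i ∈ B, w i ∨
      6 + 6 * B.card + R.card + ∑ i, w i * w i ≤ e * e + 4 + w j + ∑ i ∈ B, w i := by
  classical
  have hGm : G ∈ VS (fun j => aff (P j)) w e := (mem_VS _ _ _ _).2 ⟨hGe, fun j => (hord j).1⟩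
  have h1 := neg_grow he hP hG hGe hord hneg hj B hB
  obtain ⟨u, hu⟩ : ∃ u, u = dr (insert j B) w := ⟨_, rfl⟩
  have hRu : ∀ i ∈ R, i ∉ insert j B := by
    intro i hi h
    have h2 := hR i hi
    rcases Finset.mem_insert.1 h with h3 | h3
    · rw [h3] at h2
      omega
    · have := (hB i h3).2
      omega
  have hGu : G ∈ VS (fun j => aff (P j)) u e := by
    refine vs_le (fun i => ?_) hGm
    rw [hu]
    unfold dr
    split_ifs <;> omega
  rw [← hu] at h1
  obtain ⟨n, hn⟩ : ∃ n, Module.finrank K ↥(VS (fun j => aff (P j)) u e) = n + 1 :=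
    ⟨Module.finrank K ↥(VS (fun j => aff (P j)) u e) - 1, by omega⟩
  have h2 := T3.spread he hG n r u (Finset.univ \ R) P hGu hn K P hP hn
  rw [nm_compl, al_compl] at h2
  have h3 : ∑ i ∈ R, min (u i) 2 = R.card := by
    rw [Finset.card_eq_sum_ones]
    refine Finset.sum_congr rfl fun i hi => ?_
    rw [hu]
    unfold dr
    rw [if_neg (hRu i hi), hR i hi]
    rfl
  have h4 : dr R u = dr (insert j B ∪ R) w := by
    funext i
    rw [hu]
    unfold dr
    by_cases hi : i ∈ R
    · rw [if_pos hi, if_neg (hRu i hi), if_pos (Finset.mem_union_right _ hi)]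
    · rw [if_neg hi]
      have : i ∈ insert j B ∪ R ↔ i ∈ insert j B := by
        rw [Finset.mem_union]
        tauto
      simp only [this]
  rw [h3, h4] at h2
  have hsum : ∑ i ∈ insert j B ∪ R, w i = w j + ∑ i ∈ B, w i + R.card := by
    rw [Finset.sum_union (by
      rw [Finset.disjoint_left]
      intro i hi hi2
      exact hRu i hi2 hi), Finset.sum_insert (fun h => (hB j h).1 rfl), Finset.card_eq_sum_ones]
    congr 1
    exact Finset.sum_congr rfl fun i hi => hR i hi
  have h5 := sum_dr (insert j B ∪ R) w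
  rw [hsum] at h5
  have h6 := cliff hG hGe he (inj_of_alg hP) hord (u := dr (insert j B ∪ R) w) (fun i => by
    unfold dr
    split_ifs <;> omega) ⟨0, fun m _ => hc_zero P (fun i => by
    unfold dr
    split_ifs <;> omega) m⟩ (by omega)
  rcases h6 with h6 | h6
  · left
    omega
  · right
    omega

end Pool.Agent.TH167.CL
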