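import Pool.Agent.TH167.CL.NegG

set_option autoImplicit false

/-!
# Negative curves of genus at least ten
-/

namespace Pool.Agent.TH167.CL

open MvPolynomial Pool.Agent.W609 Pool.Agent.W609.CR Pool.Agent.TH167.SH Pool.Agent.TH167.TT
  Pool.Agent.TH167.DD Pool.Agent.TH167.T3 Pool.Agent.H248R5 Pool.Agent.H248R6

/-- A subset whose sum is just above a bound. -/
theorem exists_part {ι : Type} [DecidableEq ι] (a : ι → ℤ) (t M : ℤ) (T : Finset ι)
    (hM : ∀ i ∈ T, a i ≤ M) (ht : t ≤ ∑ i ∈ T, a i) :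
    ∃ B ⊆ T, t ≤ ∑ i ∈ B, a i ∧ ∑ i ∈ B, a i ≤ max 0 (t - 1 + M) := by
  induction T using Finset.induction_on with
  | empty =>
    refine ⟨∅, Finset.Subset.refl _, ht, ?_⟩
    rw [Finset.sum_empty]
    exact le_max_left _ _
  | insert b T hb ih =>
    by_cases h1 : t ≤ ∑ i ∈ T, a i
    · obtain ⟨B, hB, h2⟩ := ih (fun i hi => hM i (Finset.mem_insert_of_mem hi)) h1
      exact ⟨B, fun i hi => Finset.mem_insert_of_mem (hB hi), h2⟩
    · refine ⟨insert b T, Finset.Subset.refl _, ht, ?_⟩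
      rw [Finset.sum_insert hb]
      have h2 := hM b (Finset.mem_insert_self _ _)
      refine le_trans ?_ (le_max_right _ _)
      push Not at h1
      linarith

/-- Negative curves of arithmetic genus at least ten have at most three multiplicities less than
six. -/
theorem neg_ten {K : Type} [Field K] [CharZero K] [IsAlgClosed K] {r e : ℕ}
    {w : Fin (r + 4) → ℕ} {P : Fin (r + 4) → Fin 2 → K}
    (hP : AlgebraicIndependent ℚ (fun ij : Fin (r + 4) × Fin 2 => P ij.1 ij.2))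
    {G : MvPolynomial (Fin 3) K} (hG : Irreducible G) (hGe : G.IsHomogeneous e)
    (hord : ∀ j, Ord (aff (P j)) (w j) G) (hneg : ip e w e w < 0)
    (hg : 18 ≤ ip e w e w - kk e w) :
    ((Finset.univ.filter fun i => w i = 1).card : ℤ) +
      ∑ i ∈ Finset.univ.filter (fun i => 2 ≤ w i), ((6 - w i : ℕ) : ℤ) ≤
        max 0 (4 + ip e w e w) := by
  classical
  have hne : ¬ (ip e w e w = -1 ∧ kk e w = 1) := by
    rintro ⟨h1, h2⟩
    omega
  have hcl := neg_cl hP hG hGe hord hneg hne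
  obtain ⟨T, hT⟩ : ∃ T : Finset (Fin (r + 4)), T = Finset.univ.filter fun i => 2 ≤ w i ∧ w i ≤ 5 :=
    ⟨_, rfl⟩
  obtain ⟨R, hR⟩ : ∃ R : Finset (Fin (r + 4)), R = Finset.univ.filter fun i => w i = 1 := ⟨_, rfl⟩
  have hTm : ∀ i, i ∈ T ↔ 2 ≤ w i ∧ w i ≤ 5 := fun i => by
    rw [hT, Finset.mem_filter]
    simp
  have hRm : ∀ i, i ∈ R ↔ w i = 1 := fun i => by
    rw [hR, Finset.mem_filter]
    simp
  have hw4 : ∀ i, 2 ≤ w i → 4 ≤ w i := by
    intro i hi
    rcases hcl with h | ⟨-, j0, hj0, h⟩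
    · exact h i (by omega)
    · by_cases hij : i = j0
      · rw [hij, hj0] at hi
        omega
      · exact h i hij (by omega)
  have hsumT : ∑ i ∈ Finset.univ.filter (fun i => 2 ≤ w i), ((6 - w i : ℕ) : ℤ) =
      ∑ i ∈ T, (6 - (w i : ℤ)) := by
    have h1 : T ⊆ Finset.univ.filter (fun i => 2 ≤ w i) := by
      intro i hi
      rw [Finset.mem_filter]
      exact ⟨Finset.mem_univ _, ((hTm i).1 hi).1⟩
    rw [← Finset.sum_subset h1]
    · refine Finset.sum_congr rfl fun i hi => ?_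
      have := (hTm i).1 hi
      omega
    · intro i hi hi2
      have h2 := (Finset.mem_filter.1 hi).2
      have h3 : ¬ w i ≤ 5 := fun h => hi2 ((hTm i).2 ⟨h2, h⟩)
      omega
  rw [hsumT, ← hR]
  rcases Finset.eq_empty_or_nonempty T with hTe | hTn
  · rw [hTe, Finset.sum_empty, add_zero]
    rcases hcl with h | ⟨h1, j0, hj0, h⟩
    · have : R = ∅ := by
        rw [Finset.eq_empty_iff_forall_notMem]
        intro i hi
        have h2 := (hRm i).1 hi
        have := h i (by omega)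
        omega
      rw [this]
      simp
    · have : R ⊆ {j0} := by
        intro i hi
        rw [Finset.mem_singleton]
        by_contra hij
        have h2 := (hRm i).1 hi
        have := h i hij (by omega)
        omega
      have h3 := Finset.card_le_card this
      rw [Finset.card_singleton] at h3
      refine le_trans ?_ (le_max_right _ _)
      rw [h1]
      omega
  · obtain ⟨j, hjT, hjmin⟩ := Finset.exists_min_image T w hTn
    have hj := (hTm j).1 hjT
    have hj4 := hw4 j hj.1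
    by_contra hcon
    push Not at hcon
    have hcon1 : 4 + ip e w e w < (R.card : ℤ) + ∑ i ∈ T, (6 - (w i : ℤ)) :=
      lt_of_le_of_lt (le_max_right _ _) hcon
    obtain ⟨T', hT'⟩ : ∃ T', T' = T.erase j := ⟨_, rfl⟩
    have hTT : ∑ i ∈ T, (6 - (w i : ℤ)) = (6 - (w j : ℤ)) + ∑ i ∈ T', (6 - (w i : ℤ)) := by
      rw [hT', Finset.add_sum_erase T (fun i => 6 - (w i : ℤ)) hjT]
    obtain ⟨t, ht⟩ : ∃ t : ℤ, t = w j - 1 + ip e w e w - R.card := ⟨_, rfl⟩
    obtain ⟨B, hBT, hB1, hB2⟩ := exists_part (fun i => 6 - (w i : ℤ)) t (6 - (w j : ℤ)) T'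
      (fun i hi => by
        rw [hT', Finset.mem_erase] at hi
        have := hjmin i hi.2
        omega) (by linarith)
    have hBm : ∀ i ∈ B, i ≠ j ∧ w j ≤ w i ∧ w i ≤ 5 := by
      intro i hi
      have h1 := hBT hi
      rw [hT', Finset.mem_erase] at h1
      exact ⟨h1.1, hjmin i h1.2, ((hTm i).1 h1.2).2⟩
    have he : 2 ≤ e := by
      have := van_le hG.ne_zero hGe (hord j).1
      omega
    have h1 := neg_ineq he hP hG hGe hord hneg (j := j) (by omega) B R
      (fun i hi => ⟨(hBm i hi).1, (hBm i hi).2.1⟩) (fun i hi => (hRm i).1 hi)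
    have hip : ip e w e w = ((e * e : ℕ) : ℤ) - ((∑ j, w j * w j : ℕ) : ℤ) := by
      unfold ip
      push_cast
      rfl
    have hkk := kk_cast e w
    have hB3 : ∑ i ∈ B, (6 - (w i : ℤ)) = 6 * B.card - ((∑ i ∈ B, w i : ℕ) : ℤ) := by
      rw [Finset.sum_sub_distrib, Finset.sum_const, nsmul_eq_mul]
      push_cast
      ring
    have hB4 : ((∑ i ∈ B, w i : ℕ) : ℤ) - 3 * B.card ≤ 2 * ∑ i ∈ B, (6 - (w i : ℤ)) := by
      have h2 : ∀ i ∈ B, (w i : ℤ) - 3 ≤ 2 * (6 - (w i : ℤ)) := by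
        intro i hi
        have := (hBm i hi).2.2
        omega
      have h3 := Finset.sum_le_sum h2
      rw [← Finset.mul_sum, Finset.sum_sub_distrib, Finset.sum_const, nsmul_eq_mul] at h3
      push_cast
      linarith
    obtain ⟨E, hE⟩ : ∃ E, E = e * e := ⟨_, rfl⟩
    obtain ⟨A, hA⟩ : ∃ A, A = ∑ j, w j * w j := ⟨_, rfl⟩
    obtain ⟨W, hW⟩ : ∃ W, W = ∑ j, w j := ⟨_, rfl⟩
    obtain ⟨b, hb⟩ : ∃ b, b = ∑ i ∈ B, w i := ⟨_, rfl⟩
    obtain ⟨z, hz⟩ : ∃ z : ℤ, z = ∑ i ∈ B, (6 - (w i : ℤ)) := ⟨_, rfl⟩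
    rw [← hA, ← hE] at hip
    rw [← hW] at hkk
    rw [← hA, ← hE, ← hW, ← hb] at h1
    rw [← hz] at hB1 hB2 hB3 hB4
    rw [← hb] at hB3 hB4
    have hB5 : z ≤ 3 := by
      refine le_trans hB2 (max_le (by norm_num) ?_)
      omega
    rcases h1 with h1 | h1 <;> omega

end Pool.Agent.TH167.CL
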