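import Pool.Agent.TH167.CL.Neg
import Pool.Agent.TH167.T3.Super

set_option autoImplicit false

/-!
# The superabundance of systems with an irreducible member and the theorem of Clifford
-/

namespace Pool.Agent.TH167.CL

open MvPolynomial Pool.Agent.W609 Pool.Agent.W609.CR Pool.Agent.TH167.SH Pool.Agent.TH167.TT
  Pool.Agent.TH167.DD Pool.Agent.TH167.T3 Pool.Agent.TH167.SM

/-- The rigid case. -/
theorem half_rigid {K : Type} [Field K] [CharZero K] [IsAlgClosed K] {r e : ℕ} (he : 2 ≤ e)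
    {w : Fin (r + 4) → ℕ} (S : Finset (Fin (r + 4))) {P : Fin (r + 4) → Fin 2 → K}
    (hP : AlgebraicIndependent ℚ (fun ij : Fin (r + 4) × Fin 2 => P ij.1 ij.2))
    {G : MvPolynomial (Fin 3) K} (hG : Irreducible G) (hGe : G.IsHomogeneous e)
    (hord : ∀ j, Ord (aff (P j)) (w j) G)
    (hn : Module.finrank K ↥(VS (fun j => aff (P j)) w e) = 1) (hpos : 1 ≤ nm S w) :
    (2 : ℤ) ≤ 2 * chi e w + 2 * ((∑ j, (if j ∈ S then 0 else w j - 2) : ℕ) : ℤ) +
      max 0 (((∑ j ∈ S, w j : ℕ) : ℤ) + 2 - 3 * e) := by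
  classical
  have h1 := cs he S hP hG hGe hord (n := 0) hn (by omega)
  rw [zero_add] at h1
  have h2 : nm S w + ∑ j, (if j ∈ S then 0 else w j - 2) = ∑ j, (if j ∈ S then 0 else w j) := by
    unfold nm
    rw [← Finset.sum_add_distrib]
    refine Finset.sum_congr rfl fun j _ => ?_
    split_ifs
    · rfl
    · omega
  have h3 : ∑ j ∈ S, w j + ∑ j, (if j ∈ S then 0 else w j) = ∑ j, w j := by
    rw [← Finset.sum_filter_add_sum_filter_not Finset.univ (fun j => j ∈ S) w]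
    congr 1
    · rw [Finset.filter_mem_eq_inter, Finset.univ_inter]
    · rw [Finset.sum_filter]
      refine Finset.sum_congr rfl fun j _ => ?_
      by_cases hj : j ∈ S
      · rw [if_pos hj, if_neg (not_not.2 hj)]
      · rw [if_neg hj, if_pos hj]
  have h4 := two_chi e w
  have h5 : ip e w e w = ((e * e : ℕ) : ℤ) - ((∑ j, w j * w j : ℕ) : ℤ) := by
    unfold ip
    push_cast
    rfl
  rw [h5, kk_cast] at h4
  obtain ⟨A, hA⟩ : ∃ A, A = ∑ j, w j * w j := ⟨_, rfl⟩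
  obtain ⟨B, hB⟩ : ∃ B, B = ∑ j, w j := ⟨_, rfl⟩
  obtain ⟨C1, hC1⟩ : ∃ C1, C1 = ∑ j ∈ S, w j := ⟨_, rfl⟩
  obtain ⟨C2, hC2⟩ : ∃ C2, C2 = ∑ j, (if j ∈ S then 0 else w j) := ⟨_, rfl⟩
  obtain ⟨C3, hC3⟩ : ∃ C3, C3 = ∑ j, (if j ∈ S then 0 else w j - 2) := ⟨_, rfl⟩
  obtain ⟨E, hE⟩ : ∃ E, E = e * e := ⟨_, rfl⟩
  rw [← hA, ← hB, ← hE] at h4
  rw [← hC2, ← hC3] at h2
  rw [← hC1, ← hC2, ← hB] at h3
  rw [← hC2, ← hA, ← hB, ← hE] at h1
  rw [← hC1, ← hC3]
  rcases h1 with h1 | h1 <;> omega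

/-- Systems with an irreducible member at generic points. -/
theorem halfG {K : Type} [Field K] [CharZero K] [IsAlgClosed K] {s : ℕ}
    {P : Fin s → Fin 2 → K}
    (hP : AlgebraicIndependent ℚ (fun ij : Fin s × Fin 2 => P ij.1 ij.2)) {w : Fin s → ℕ}
    {d : ℕ} (S : Finset (Fin s))
    {f : MvPolynomial (Fin 3) K} (hf : f ∈ VS (fun j => aff (P j)) w d) (hirr : Irreducible f)
    (hcond : (∃ i, i ∉ S ∧ 1 ≤ w i) ∨ 2 ≤ Module.finrank K ↥(VS (fun j => aff (P j)) w d)) :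
    2 * (Module.finrank K ↥(VS (fun j => aff (P j)) w d) : ℤ) ≤
      2 * chi d w + 2 * ((∑ j, (if j ∈ S then 0 else w j - 2) : ℕ) : ℤ) +
        max 0 (((∑ j ∈ S, w j : ℕ) : ℤ) + 2 - 3 * d) := by
  classical
  have hfm := (mem_VS _ _ _ _).1 hf
  rcases Nat.lt_or_ge d 2 with hd2 | hd2
  · have hd0 := deg_pos hirr hfm.1
    have h1 : ∑ j ∈ Finset.univ.filter (fun i => 2 < w i), w j < 3 * d := by
      rw [Finset.sum_eq_zero]
      · omega
      · intro j hj
        have h2 := (Finset.mem_filter.1 hj).2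
        have h3 := van_le hirr.ne_zero hfm.1 (hfm.2 j)
        omega
    have h2 := (general_smoothP hP h1 hf hirr).1
    rw [h2]
    have : (0 : ℤ) ≤ ((∑ j, (if j ∈ S then 0 else w j - 2) : ℕ) : ℤ) := Int.natCast_nonneg _
    have h5 := le_max_left (0 : ℤ) (((∑ j ∈ S, w j : ℕ) : ℤ) + 2 - 3 * d)
    linarith
  have hfin := vs_fin (fun j => aff (P j)) w d
  have hpos := pos_of_mem hf hirr.ne_zero
  obtain ⟨n, hn⟩ : ∃ n, Module.finrank K ↥(VS (fun j => aff (P j)) w d) = n + 1 :=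
    ⟨Module.finrank K ↥(VS (fun j => aff (P j)) w d) - 1, by omega⟩
  let b : Module.Basis (Fin (n + 1)) K ↥(VS (fun j => aff (P j)) w d) :=
    Module.finBasisOfFinrankEq K _ hn
  obtain ⟨L, i1, i2, i3, i4, Q, t, D, hPQ, hD, hK, hN, h1, hG⟩ := gen_member hP b
  obtain ⟨G, hGd⟩ : ∃ G, G = ∑ j, C (t j) *
    map (algebraMap K L) (b j : MvPolynomial (Fin 3) K) := ⟨_, rfl⟩
  rw [← hGd] at hG
  have hli : LinearIndependent K (fun j => (b j : MvPolynomial (Fin 3) K)) :=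
    b.linearIndependent.map' (Submodule.subtype _) (Submodule.ker_subtype _)
  have hG0 : G ≠ 0 := by
    intro h0
    rw [hGd] at h0
    have h2 := congrFun (lin_ind_map hli h0) 0
    have h3 := hD 0 0
    rw [h2, Pi.zero_apply, map_zero, if_pos rfl] at h3
    exact zero_ne_one h3
  -- special points
  obtain ⟨Q0, hQ0, hQ1⟩ := pick hirr hfm.1 hd2 n (VS (fun j => aff (P j)) w d)
    (fun g hg => ((mem_VS _ _ _ _).1 hg).1) hf hn
  obtain ⟨Q2, hQ2⟩ : ∃ Q2 : Fin (n + 4) → Fin 2 → K, ∀ (k : Fin (n + 4)) (h : k.1 < n),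
      Q2 k = Q0 ⟨k.1, h⟩ :=
    ⟨fun k => if h : k.1 < n then Q0 ⟨k.1, h⟩ else 0, fun k h => dif_pos h⟩
  have hmem : ∀ g : MvPolynomial (Fin 3) K, g ∈ VS (fun j => aff (PPt P Q2 j))
      (wwt w (fun k : Fin (n + 4) => if k.1 < n then 1 else 0)) d ↔
      g ∈ VS (fun j => aff (P j)) w d ∧ ∀ k, eval (aff (Q0 k)) g = 0 := by
    intro g
    rw [mem_PPt]
    refine and_congr Iff.rfl ⟨fun h k => ?_, fun h k => ?_⟩
    · have h2 := h (Fin.castAdd 4 k)
      rw [if_pos (show (Fin.castAdd 4 k).1 < n from k.2), hQ2 _ k.2] at h2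
      exact TT.van_one.1 h2
    · split_ifs with hk
      · rw [hQ2 k hk]
        exact TT.van_one.2 (h _)
      · exact van_zero _ _
  have hfs := (hmem f).2 ⟨hf, hQ0⟩
  have h1s : Module.finrank K ↥(VS (fun j => aff (PPt P Q2 j))
      (wwt w (fun k : Fin (n + 4) => if k.1 < n then 1 else 0)) d) = 1 := by
    refine (finrank_eq_one_iff_of_nonzero' ⟨f, hfs⟩
      (fun h => hirr.ne_zero (congrArg Subtype.val h))).2 fun g => ?_
    obtain ⟨g1, g2⟩ := (hmem g.1).1 g.2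
    obtain ⟨c, hc⟩ := hQ1 g.1 g1 g2
    exact ⟨c, Subtype.ext hc⟩
  have hGi : Irreducible G := irr_of_special hPQ h1s hfs hirr hG hG0
  -- the bound for the rigid system
  obtain ⟨ww, hww⟩ : ∃ ww, ww = wwt w (fun k : Fin (n + 4) => if k.1 < n then 1 else 0) :=
    ⟨_, rfl⟩
  obtain ⟨T, hT⟩ : ∃ T : Finset (Fin (s + (n + 4))),
    T = S.map ⟨fun j => finSumFinEquiv (Sum.inl j), fun a b h => by
      simpa using h⟩ := ⟨_, rfl⟩
  have hTl : ∀ i : Fin s, finSumFinEquiv (Sum.inl i) ∈ T ↔ i ∈ S := by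
    intro i
    rw [hT, Finset.mem_map]
    constructor
    · rintro ⟨j, hj, hij⟩
      have h2 : (finSumFinEquiv (Sum.inl j) : Fin (s + (n + 4))) = finSumFinEquiv (Sum.inl i) := hij
      have h3 := Sum.inl.inj (finSumFinEquiv.injective h2)
      rwa [← h3]
    · intro hi
      exact ⟨i, hi, rfl⟩
  have hTr : ∀ k : Fin (n + 4), (finSumFinEquiv (Sum.inr k) : Fin (s + (n + 4))) ∉ T := by
    intro k hk
    rw [hT, Finset.mem_map] at hk
    obtain ⟨j, -, hij⟩ := hk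
    have h2 : (finSumFinEquiv (Sum.inl j) : Fin (s + (n + 4))) = finSumFinEquiv (Sum.inr k) := hij
    exact absurd (finSumFinEquiv.injective h2) (by simp)
  have hsum : ∑ j ∈ T, ww j = ∑ j ∈ S, w j := by
    rw [hT, Finset.sum_map]
    refine Finset.sum_congr rfl fun j _ => ?_
    rw [hww]
    exact wwt_inl _ _ _
  have hnm : 1 ≤ nm (s := s + n + 4) T ww := by
    rcases hcond with ⟨i, hi, hwi⟩ | h2
    · have h3 : (1 : ℕ) ≤ if (finSumFinEquiv (Sum.inl i) : Fin (s + (n + 4))) ∈ T then 0 else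
          min (ww (finSumFinEquiv (Sum.inl i))) 2 := by
        rw [if_neg fun h => hi ((hTl i).1 h), hww, wwt_inl]
        omega
      refine le_trans h3 ?_
      unfold nm
      exact Finset.single_le_sum
        (f := fun j : Fin (s + n + 4) => if j ∈ T then 0 else min (ww j) 2)
        (fun j _ => Nat.zero_le _) (Finset.mem_univ _)
    · have hn1 : 0 < n := by
        rw [hn] at h2
        omega
      have h3 : (1 : ℕ) ≤ if (finSumFinEquiv (Sum.inr (⟨0, by omega⟩ : Fin (n + 4))) :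
          Fin (s + (n + 4))) ∈ T then 0 else
          min (ww (finSumFinEquiv (Sum.inr (⟨0, by omega⟩ : Fin (n + 4))))) 2 := by
        rw [if_neg (hTr _), hww, wwt_inr, if_pos hn1]
        omega
      refine le_trans h3 ?_
      unfold nm
      exact Finset.single_le_sum
        (f := fun j : Fin (s + n + 4) => if j ∈ T then 0 else min (ww j) 2)
        (fun j _ => Nat.zero_le _) (Finset.mem_univ _)
  rw [← hww] at hG h1
  have hb := half_rigid (r := s + n) hd2 T hPQ hGi ((mem_VS _ _ _ _).1 hG).1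
    (exact_ord hPQ h1 hG hG0) h1 hnm
  have hcost : ∑ j, (if j ∈ T then 0 else ww j - 2) = ∑ j, (if j ∈ S then 0 else w j - 2) := by
    rw [← Equiv.sum_comp finSumFinEquiv, Fintype.sum_sum_type]
    have e1 : ∀ i : Fin s, (if finSumFinEquiv (Sum.inl i) ∈ T then 0 else
        ww (finSumFinEquiv (Sum.inl i)) - 2) = if i ∈ S then 0 else w i - 2 := by
      intro i
      rw [hww, wwt_inl]
      by_cases hi : i ∈ S
      · rw [if_pos hi, if_pos ((hTl i).2 hi)]
      · rw [if_neg hi, if_neg fun h => hi ((hTl i).1 h)]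
    have e2 : ∀ k : Fin (n + 4), (if finSumFinEquiv (Sum.inr k) ∈ T then 0 else
        ww (finSumFinEquiv (Sum.inr k)) - 2) = 0 := by
      intro k
      rw [if_neg (hTr k), hww, wwt_inr]
      split_ifs <;> rfl
    rw [Finset.sum_congr rfl fun i _ => e1 i, Finset.sum_congr rfl fun k _ => e2 k]
    simp
  have hb2 : (2 : ℤ) ≤ 2 * chi (s := s + (n + 4)) d ww +
      2 * ((∑ j : Fin (s + (n + 4)), (if j ∈ T then 0 else ww j - 2) : ℕ) : ℤ) +
        max 0 (((∑ j ∈ T, ww j : ℕ) : ℤ) + 2 - 3 * d) := hb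
  rw [hcost, hsum, chi_cast, hww, wwt_choose (n := n) w] at hb2
  rw [hn, chi_cast]
  push_cast at hb2 ⊢
  linarith

end Pool.Agent.TH167.CL
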