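import Pool.Agent.TH167.CL.Cfg

set_option autoImplicit false

/-!
# The bound for the canonical system
-/

namespace Pool.Agent.TH167.CL

open MvPolynomial Pool.Agent.W609 Pool.Agent.W609.CR Pool.Agent.TH167.SH Pool.Agent.TH167.DD

/-- The duality inequality for a part of the points. -/
theorem dual2 {K : Type} [Field K] [CharZero K] [IsAlgClosed K] {s : ℕ}
    {G : MvPolynomial (Fin 3) K} {d : ℕ} {P : Fin s → Fin 2 → K} {w r : Fin s → ℕ}
    {Ls : List (K × K)} {Q Q' : Finset (Fin 2 → K)}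
    (h : Cfg G d P w r Ls Q) (hQ' : Q' ⊆ Q) (hG : G.IsHomogeneous d) (hG0 : G ≠ 0)
    (hw : ∀ i, Ord (aff (P i)) (w i) G) {a b : ℕ} (hab : a + b + 3 = d + Ls.length)
    (A B : Submodule K (MvPolynomial (Fin 3) K)) (hA : ∀ f ∈ A, f.IsHomogeneous a)
    (hAQ : ∀ f ∈ A, ∀ q ∈ Q, q ∉ Q' → eval (aff q) f = 0)
    (hB : ∀ g ∈ B, g.IsHomogeneous b)
    (hAB : ∀ f ∈ A, ∀ g ∈ B, ∀ i, w i ≠ 0 → Van (aff (P i)) (w i + r i - 1) (f * g)) :
    Module.finrank K ↥(A.map (ev Q')) + Module.finrank K ↥(B.map (ev Q')) ≤ Q'.card := by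
  classical
  let W : Submodule K (MvPolynomial (Fin 3) K) :=
    homogeneousSubmodule (Fin 3) K (a + b) ⊓
      ⨅ i : {i : Fin s // w i ≠ 0}, Submodule.restrictScalars K
        ((RingHom.ker (MvPolynomial.eval (aff (P i.1)))) ^ (w i.1 + r i.1 - 1))
  have hW : ∀ f, f ∈ W ↔ f.IsHomogeneous (a + b) ∧
      ∀ i, w i ≠ 0 → Van (aff (P i)) (w i + r i - 1) f := by
    intro f
    rw [Submodule.mem_inf, mem_homogeneousSubmodule, Submodule.mem_iInf]
    constructor
    · rintro ⟨h1, h2⟩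
      exact ⟨h1, fun i hi => h2 ⟨i, hi⟩⟩
    · rintro ⟨h1, h2⟩
      exact ⟨h1, fun i => h2 i.1 i.2⟩
  obtain ⟨c, hc, hcU⟩ := exists_func (W.map (ev Q)) (by
    rintro q0 ⟨F, hF, hFe⟩
    have hF' := (hW F).1 hF
    have h1 := h.cb hG hG0 hw hab hF'.1 hF'.2 q0.2 (fun q hq hne => by
      have h2 := congrFun hFe ⟨q, hq⟩
      rw [ev_apply, Pi.single_eq_of_ne] at h2
      · exact h2
      · intro h3
        exact hne (congrArg Subtype.val h3))
    have h2 := congrFun hFe q0
    rw [ev_apply, Pi.single_eq_same, h1] at h2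
    exact zero_ne_one h2)
  obtain ⟨cc, hcc⟩ : ∃ cc : (Fin 2 → K) → K, cc = fun q => if h : q ∈ Q then c ⟨q, h⟩ else 0 :=
    ⟨_, rfl⟩
  have h1 := orth_dim (fun q : Q' => c ⟨q.1, hQ' q.2⟩) (fun q => hc _) (A.map (ev Q'))
    (B.map (ev Q')) (by
    rintro _ ⟨f, hf, rfl⟩ _ ⟨g, hg, rfl⟩
    have h2 : f * g ∈ W := (hW _).2 ⟨(hA f hf).mul (hB g hg), fun i hi => hAB f hf g hg i hi⟩
    have h3 := hcU _ ⟨f * g, h2, rfl⟩
    have h4 : ∑ q : Q', c ⟨q.1, hQ' q.2⟩ * (ev Q' f q * ev Q' g q) =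
        ∑ q ∈ Q', cc q * (eval (aff q) f * eval (aff q) g) := by
      rw [← Finset.sum_coe_sort Q']
      refine Finset.sum_congr rfl fun q _ => ?_
      rw [hcc, ev_apply, ev_apply]
      simp only [dif_pos (hQ' q.2)]
    have h5 : ∑ q : Q, c q * ev Q (f * g) q =
        ∑ q ∈ Q, cc q * (eval (aff q) f * eval (aff q) g) := by
      rw [← Finset.sum_coe_sort Q]
      refine Finset.sum_congr rfl fun q _ => ?_
      rw [hcc, ev_apply, map_mul]
      simp only [dif_pos q.2]
    rw [h4, Finset.sum_subset hQ', ← h5, h3]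
    intro q hq hq'
    rw [hAQ f hf q hq hq', zero_mul, mul_zero])
  rwa [Fintype.card_coe] at h1

/-- A subspace is determined by few coordinates. -/
theorem exists_small {K : Type} [Field K] {ι : Type} [Fintype ι] :
    ∀ (n : ℕ) (U : Submodule K (ι → K)), Module.finrank K ↥U = n →
      ∃ J : Finset ι, J.card ≤ n ∧ ∀ u ∈ U, (∀ i ∈ J, u i = 0) → u = 0 := by
  classical
  intro n
  induction n using Nat.strong_induction_on with
  | _ n ih =>
    intro U hU
    by_cases hbot : U = ⊥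
    · refine ⟨∅, Nat.zero_le _, fun u hu _ => ?_⟩
      rw [hbot] at hu
      exact (Submodule.mem_bot K).1 hu
    · obtain ⟨u, hu, hu0⟩ := (Submodule.ne_bot_iff U).1 hbot
      obtain ⟨i, hi⟩ : ∃ i, u i ≠ 0 := by
        by_contra hcon
        push Not at hcon
        exact hu0 (funext hcon)
      have hlt : U ⊓ LinearMap.ker (LinearMap.proj (R := K) (φ := fun _ : ι => K) i) < U := by
        refine lt_of_le_of_ne inf_le_left fun heq => ?_
        rw [← heq] at hu
        exact hi (LinearMap.mem_ker.1 hu.2)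
      have h1 := Submodule.finrank_lt_finrank_of_lt hlt
      obtain ⟨J, hJ1, hJ2⟩ := ih _ (by rw [← hU]; exact h1) _ rfl
      refine ⟨insert i J, ?_, ?_⟩
      · have := Finset.card_insert_le i J
        omega
      · intro v hv hvJ
        refine hJ2 v ⟨hv, LinearMap.mem_ker.2 (hvJ i (Finset.mem_insert_self _ _))⟩
          fun j hj => hvJ j (Finset.mem_insert_of_mem hj)

theorem ev_one {K : Type} [Field K] (q : Fin 2 → K)
    (A : Submodule K (MvPolynomial (Fin 3) K)) :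
    Module.finrank K ↥(A.map (ev {q})) ≤ 1 := by
  have h1 := Submodule.finrank_le (A.map (ev {q}))
  rw [Module.finrank_fintype_fun_eq_card, Fintype.card_coe, Finset.card_singleton] at h1
  exact h1

/-- The bound for the canonical system. -/
theorem tb {K : Type} [Field K] [CharZero K] [IsAlgClosed K] {s : ℕ}
    {G : MvPolynomial (Fin 3) K} {d : ℕ} (hG : Irreducible G) (hGd : G.IsHomogeneous d)
    (hd : 2 ≤ d) {P : Fin s → Fin 2 → K} (hP : Function.Injective P) {w : Fin s → ℕ}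
    (hw : ∀ i, Ord (aff (P i)) (w i) G) {i0 : Fin s} (hi0 : w i0 = 0) {r : Fin s → ℕ}
    (hr : ∀ i, w i ≠ 0 → r i = w i) {Ls : List (K × K)} {Q : Finset (Fin 2 → K)}
    (hC : Cfg G d P w r Ls Q) (hk3 : 3 ≤ Ls.length) (hQ : Q.Nonempty) :
    ∃ J : Finset (Fin 2 → K),
      2 * J.card + ∑ i, w i * w i + 3 * d ≤ d * d + 2 + ∑ i, w i ∧
      ∀ F : MvPolynomial (Fin 3) K, F.IsHomogeneous (d + (Ls.length - 3)) →
        (∀ i, w i ≠ 0 → Van (aff (P i)) (2 * w i - 1) F) → (∀ q ∈ Q, eval (aff q) F = 0) →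
        (∀ q ∈ J, eval (aff q) F = 0) → G ∣ F := by
  classical
  have hG0 := hG.ne_zero
  obtain ⟨k, hk⟩ : ∃ k, k = Ls.length := ⟨_, rfl⟩
  obtain ⟨N, hN⟩ : ∃ N, N = d + ∑ j, w j + 5 := ⟨_, rfl⟩
  obtain ⟨r2, hr2⟩ : ∃ r2 : Fin s → ℕ, r2 = fun i => w i + (if i = i0 then N else 0) := ⟨_, rfl⟩
  obtain ⟨Ls2, Q2, hC2, hlen, hdis, hcd⟩ := extend_cfg hG hGd hd hP hw hC _ r2 rfl
  have hs2 : ∑ i, r2 i = ∑ i, w i + N := by
    rw [hr2, Finset.sum_add_distrib, Finset.sum_ite_eq' Finset.univ i0 (fun _ => N),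
      if_pos (Finset.mem_univ _)]
  have hwr2 : ∑ i, w i * r2 i = ∑ i, w i * w i := by
    refine Finset.sum_congr rfl fun i _ => ?_
    rw [hr2]
    by_cases hi : i = i0
    · rw [hi, hi0, zero_mul, zero_mul]
    · simp only [if_neg hi, add_zero]
  obtain ⟨k2, hk2⟩ : ∃ k2, k2 = ∑ i, r2 i := ⟨_, rfl⟩
  rw [hwr2, ← hk2] at hcd
  rw [← hk2, ← hk] at hlen
  let T := VS (fun j => aff (P j)) (fun i => 2 * w i - 1) (d + (k - 3)) ⊓ LinearMap.ker (ev Q)
  let V := VS (fun j => aff (P j)) w k2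
  have hTf : Module.Finite K ↥(VS (fun j => aff (P j)) (fun i => 2 * w i - 1) (d + (k - 3))) :=
    vs_fin _ _ _
  have hTf2 : Module.Finite K ↥T := Submodule.finiteDimensional_inf_left _ _
  have hVf : Module.Finite K ↥V := vs_fin (fun j => aff (P j)) w k2
  have hmemT : ∀ F, F ∈ T ↔ F.IsHomogeneous (d + (k - 3)) ∧
      (∀ i, Van (aff (P i)) (2 * w i - 1) F) ∧ ∀ q ∈ Q, eval (aff q) F = 0 := by
    intro F
    rw [Submodule.mem_inf, mem_VS, LinearMap.mem_ker]
    constructor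
    · rintro ⟨⟨h1, h2⟩, h3⟩
      exact ⟨h1, h2, fun q hq => congrFun h3 ⟨q, hq⟩⟩
    · rintro ⟨h1, h2, h3⟩
      exact ⟨⟨h1, h2⟩, funext fun q => h3 q.1 q.2⟩
  have hdual := dual2 hC2 (Q' := Q2) Finset.subset_union_right hGd hG0 hw
    (a := d + (k - 3)) (b := k2) (by omega) T V (fun f hf => ((hmemT f).1 hf).1)
    (fun f hf q hq hq2 => by
      rcases Finset.mem_union.1 hq with h | h
      · exact ((hmemT f).1 hf).2.2 q h
      · exact absurd h hq2)
    (fun f hf => ((mem_VS _ _ _ _).1 hf).1) (by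
    intro f hf g hg i hi
    have h1 := van_mul (((hmemT f).1 hf).2.1 i) (((mem_VS _ _ _ _).1 hg).2 i)
    have h2 : w i + (r2 i + r i) - 1 = 2 * w i - 1 + w i := by
      have h3 : r2 i = w i := by
        rw [hr2]
        have : i ≠ i0 := by
          rintro rfl
          exact hi hi0
        simp [this]
      rw [h3, hr i hi]
      omega
    rw [h2]
    exact h1)
  -- the kernel of the second system
  obtain ⟨q0, hq0⟩ := hQ
  have hq0Q2 : q0 ∉ Q2 := fun h => (Finset.disjoint_left.1 hdis) hq0 h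
  have hPQ2 : ∀ j, P j ∉ Q2 := fun j h => hC2.disj j (Finset.mem_union_right _ h)
  have hPq0 : ∀ j, P j ≠ q0 := fun j h => hC2.disj j (Finset.mem_union_left _ (by rwa [h]))
  let V0 := V ⊓ LinearMap.ker (ev Q2)
  have hV0f : Module.Finite K ↥V0 := Submodule.finiteDimensional_inf_left _ _
  have hM := mult_finite G (k2 - d)
  have hd1 := ev_dim Q2 V V0 (fun f hf hfQ => ⟨hf, LinearMap.mem_ker.2 (funext fun q => hfQ q.1 q.2)⟩)
  have hd2 := ev_dim {q0} V0 (mult G (k2 - d)) (by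
    intro f hf hfq
    obtain ⟨hf1, hf2⟩ := hf
    have hf' := (mem_VS _ _ _ _).1 hf1
    refine mem_mult hGd hG0 hf'.1 ?_ fun _ => by omega
    by_contra hnd
    have hf0 : f ≠ 0 := fun h => hnd (by rw [h]; exact dvd_zero _)
    have h1 := bezQ hP hG hGd (fun j => (hw j).1) hf0 hf'.1 hf'.2 hnd (Q := insert q0 Q2)
      (fun j h => by
        rcases Finset.mem_insert.1 h with h2 | h2
        · exact hPq0 j h2
        · exact hPQ2 j h2)
      (fun q hq => by
        rcases Finset.mem_insert.1 hq with h2 | h2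
        · rw [h2]
          exact hC.zQ q0 hq0
        · exact hC2.zQ q (Finset.mem_union_right _ h2))
      (fun q hq => by
        rcases Finset.mem_insert.1 hq with h2 | h2
        · rw [h2]
          exact hfq q0 (Finset.mem_singleton_self _)
        · exact congrFun (LinearMap.mem_ker.1 hf2) ⟨q, h2⟩)
    rw [Finset.card_insert_of_notMem hq0Q2] at h1
    omega)
  have hd3 := ev_one q0 V0
  rw [mult_finrank hG0] at hd2
  have hdim := le_dim w P k2
  rw [← vs_eq_forms] at hdim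
  have hdim' : (k2 + 2).choose 2 ≤ Module.finrank K ↥V + ∑ j, (w j + 1).choose 2 := hdim
  obtain ⟨J0, hJ1, hJ2⟩ := exists_small _ (T.map (ev Q2)) rfl
  refine ⟨J0.image Subtype.val, ?_, ?_⟩
  · have hJc : (J0.image Subtype.val).card ≤ J0.card := Finset.card_image_le
    have hsum : 2 * ∑ j, (w j + 1).choose 2 = ∑ j, w j * w j + ∑ j, w j := by
      rw [Finset.mul_sum, ← Finset.sum_add_distrib]
      refine Finset.sum_congr rfl fun j _ => ?_
      rcases Nat.eq_zero_or_pos (w j) with h | h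
      · rw [h]
        rfl
      · obtain ⟨v, hv⟩ : ∃ v, w j = v + 1 := ⟨w j - 1, by omega⟩
        rw [hv]
        have := H932R7.two_choose v
        have e : v + 1 + 1 = v + 2 := rfl
        rw [e, this]
        ring
    obtain ⟨m, hm⟩ : ∃ m, k2 = d + m := ⟨k2 - d, by omega⟩
    have hm2 : k2 - d = m := by omega
    rw [hm2] at hd2
    rw [hm] at hdim' hcd
    have c1 : 2 * (d + m + 2).choose 2 = (d + m + 1) * (d + m + 2) := H932R7.two_choose (d + m)
    have c2 : 2 * (m + 2).choose 2 = (m + 1) * (m + 2) := H932R7.two_choose m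
    nlinarith
  · intro F hF hFP hFQ hFJ
    have hFT : F ∈ T := by
      rw [hmemT]
      refine ⟨by rw [hk]; exact hF, fun i => ?_, hFQ⟩
      by_cases hi : w i = 0
      · rw [hi]
        exact van_zero _ _
      · exact hFP i hi
    have h1 := hJ2 (ev Q2 F) ⟨F, hFT, rfl⟩ (fun q hq => hFJ q.1 (Finset.mem_image_of_mem _ hq))
    by_contra hnd
    have hF0 : F ≠ 0 := fun h => hnd (by rw [h]; exact dvd_zero _)
    have h2 := bezQ hP hG hGd (fun j => (hw j).1) hF0 ((hmemT F).1 hFT).1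
      ((hmemT F).1 hFT).2.1 hnd hC2.disj hC2.zQ (fun q hq => by
        rcases Finset.mem_union.1 hq with h | h
        · exact hFQ q h
        · exact congrFun h1 ⟨q, h⟩)
    rw [Finset.card_union_of_disjoint hdis] at h2
    have h3 := hC.card
    have h4 : ∑ i, w i * r i = ∑ i, w i * w i := by
      refine Finset.sum_congr rfl fun i _ => ?_
      by_cases hi : w i = 0
      · rw [hi, zero_mul, zero_mul]
      · rw [hr i hi]
    rw [h4, ← hk] at h3
    have h5 : ∑ i, w i * (2 * w i - 1) + ∑ i, w i = 2 * ∑ i, w i * w i := by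
      rw [← Finset.sum_add_distrib, Finset.mul_sum]
      refine Finset.sum_congr rfl fun i _ => ?_
      rcases Nat.eq_zero_or_pos (w i) with h | h
      · rw [h]
        rfl
      · obtain ⟨v, hv⟩ : ∃ v, w i = v + 1 := ⟨w i - 1, by omega⟩
        rw [hv]
        have : 2 * (v + 1) - 1 = 2 * v + 1 := by omega
        rw [this]
        ring
    obtain ⟨k', hk'⟩ : ∃ k', k = k' + 3 := ⟨k - 3, by omega⟩
    have h6 : k - 3 = k' := by omega
    rw [h6] at h2
    rw [hk'] at h3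
    have h7 : d * k2 = d * ∑ i, w i + d * N := by rw [hk2, hs2]; ring
    have h8 : d * N = d * d + d * ∑ i, w i + 5 * d := by rw [hN]; ring
    have h9 : ∑ i, w i ≤ d * ∑ i, w i := Nat.le_mul_of_pos_left _ (by omega)
    nlinarith

end Pool.Agent.TH167.CL
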